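import Pool.Agent.Lib.MP_c7af3c_ag.LX.H95.K23Curve

/-!
# MP_c7af3c_ag: a very general complete intersection of type (2,3) in the projective space of
dimension four contains a rational curve: the theorem
-/

set_option autoImplicit false
set_option linter.unusedSimpArgs false

namespace Pool.Agent.LX.H95.K23

open MvPolynomial TrivSqZeroExt Pool.Agent.LX.H95

section Maps

variable {S S' : Type} [CommRing S] [CommRing S'] (f : S →+* S')

theorem map_LM (w : Fin 4 × Fin 7 → S) : f.mapMatrix (LM w) = LM fun t => f (w t) := by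
  ext i j
  fin_cases i <;> fin_cases j <;> rfl

theorem map_crem (y : Fin 4 → S) (i : Fin 4) : f (crem y i) = crem (fun j => f (y j)) i := by
  fin_cases i
  · change f (y 1 * y 2 * y 3) = _
    rw [map_mul, map_mul]
    rfl
  · change f (y 0 * y 2 * y 3) = _
    rw [map_mul, map_mul]
    rfl
  · change f (y 0 * y 1 * y 3) = _
    rw [map_mul, map_mul]
    rfl
  · change f (y 0 * y 1 * y 2) = _
    rw [map_mul, map_mul]
    rfl

theorem map_px (w : Fin 4 × Fin 7 → S) (y : Fin 4 → S) (i : Fin 4) :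
    f (px w y i) = px (fun t => f (w t)) (fun j => f (y j)) i := by
  unfold px
  have h : (LM fun t => f (w t)).adjugate = f.mapMatrix (LM w).adjugate := by
    rw [← map_LM f w, RingHom.map_adjugate]
  rw [h]
  change f (∑ j, (LM w).adjugate i j * crem y j) =
    ∑ j, f ((LM w).adjugate i j) * crem (fun j => f (y j)) j
  rw [map_sum]
  exact Finset.sum_congr rfl fun j _ => by rw [map_mul, map_crem]

theorem map_sx (w : Fin 4 × Fin 7 → S) (y : Fin 4 → S) (i : Fin 5) :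
    f (sx w y i) = sx (fun t => f (w t)) (fun j => f (y j)) i := by
  fin_cases i
  · exact map_px f w y 0
  · exact map_px f w y 1
  · exact map_px f w y 2
  · exact map_px f w y 3
  · change f (w (0, 0) * px w y 0 + w (1, 0) * px w y 1 + w (2, 0) * px w y 2 +
      w (3, 0) * px w y 3) = _
    rw [map_add, map_add, map_add, map_mul, map_mul, map_mul, map_mul, map_px, map_px, map_px,
      map_px]
    rfl

theorem map_pl (w : Fin 4 × Fin 7 → S) (z : Fin 3 → S) (i : Fin 4) :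
    f (pl w z i) = pl (fun t => f (w t)) (fun j => f (z j)) i := by
  fin_cases i
  · exact map_mul f _ _
  · exact map_mul f _ _
  · exact map_mul f _ _
  · change f (-(w (0, 5) * z 0 + w (1, 5) * z 1 + w (2, 5) * z 2)) = _
    simp only [map_neg, map_add, map_mul]
    rfl

/-- the polynomial which must not vanish -/
def hc (w : Fin 4 × Fin 7 → S) (u : Fin 6 → S) : S :=
  (LM w).det * w (3, 5) * wc w u (0, 4) * wc w u (1, 4) * wc w u (2, 4) *
    RR (wc w u (0, 4)) (wc w u (2, 5)) (wc w u (1, 4)) (wc w u (1, 5)) (wc w u (0, 5)) *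
    RR (wc w u (0, 4)) (wc w u (2, 5)) (wc w u (1, 4)) (w (0, 5) * wc w u (0, 4))
      (w (0, 5) * wc w u (2, 5) - w (1, 5) * wc w u (0, 4)) *
    RR (wc w u (0, 4)) (wc w u (2, 5)) (wc w u (1, 4))
      (w (2, 5) * wc w u (1, 5) - w (0, 5) * wc w u (2, 4))
      (w (2, 5) * wc w u (0, 5) - w (1, 5) * wc w u (2, 4))

theorem map_hc (w : Fin 4 × Fin 7 → S) (u : Fin 6 → S) :
    f (hc w u) = hc (fun t => f (w t)) (fun t => f (u t)) := by
  unfold hc
  simp only [map_mul, map_RR, map_wc, map_sub, RingHom.map_det, map_LM]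

end Maps

/-- the polynomial which must not vanish -/
noncomputable def h23 : MvPolynomial S23 ℚ :=
  hc (fun t => X (Sum.inl t)) (fun t => X (Sum.inr (Sum.inl t)))

theorem h23_ne : h23 ≠ 0 := by
  intro h
  have h1 := map_hc (eval (Sum.elim w0 (Sum.elim (![1, 1, 3, 1, 2, 2] : Fin 6 → ℚ) fun _ => 0)))
    (fun t => (X (Sum.inl t) : MvPolynomial S23 ℚ)) (fun t => X (Sum.inr (Sum.inl t)))
  rw [show hc (fun t => (X (Sum.inl t) : MvPolynomial S23 ℚ)) (fun t => X (Sum.inr (Sum.inl t))) =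
    h23 from rfl, h, map_zero] at h1
  simp only [eval_X, Sum.elim_inl, Sum.elim_inr] at h1
  have hL : LM w0 = 1 := by
    ext i j
    fin_cases i <;> fin_cases j <;> rfl
  change 0 = hc w0 (![1, 1, 3, 1, 2, 2] : Fin 6 → ℚ) at h1
  have e0 : w0 (0, 5) = 1 := rfl
  have e1 : w0 (1, 5) = 1 := rfl
  have e2 : w0 (2, 5) = 1 := rfl
  have e3 : w0 (3, 5) = 1 := rfl
  unfold hc at h1
  rw [hL, Matrix.det_one, wc04, wc14, wc24, wc05, wc15, wc25, e0, e1, e2, e3] at h1
  unfold RR at h1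
  revert h1
  simp
  norm_num

section Hom

variable {k : Type} [Field k]

theorem lf_hom (w : Fin 4 × Fin 7 → k) (i : Fin 4) :
    (lf (fun i => (X i : MvPolynomial (Fin 5) k)) (fun t => C (w t)) i).IsHomogeneous 1 := by
  unfold lf
  exact (((hCX _ _).add (hCX _ _)).add (hCX _ _)).add (hCX _ _)

theorem hC (a : k) {n e : ℕ} {g : MvPolynomial (Fin n) k} (hg : g.IsHomogeneous e) :
    (C a * g).IsHomogeneous e := by
  simpa using (isHomogeneous_C (Fin n) a).mul hg

theorem qf_hom (w : Fin 4 × Fin 7 → k) (u : Fin 6 → k) :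
    (qf (fun t => C (u t)) (lf (fun i => (X i : MvPolynomial (Fin 5) k)) (fun t => C (w t)))
      ).IsHomogeneous 2 := by
  have h : ∀ (a : k) (i j : Fin 4), (C a * (lf (fun i => (X i : MvPolynomial (Fin 5) k))
      (fun t => C (w t)) i * lf (fun i => (X i : MvPolynomial (Fin 5) k))
      (fun t => C (w t)) j)).IsHomogeneous 2 := fun a i j => hC a ((lf_hom w i).mul (lf_hom w j))
  unfold qf
  exact (((((h _ _ _).add (h _ _ _)).add (h _ _ _)).add (h _ _ _)).add (h _ _ _)).add (h _ _ _)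

theorem gf_hom (w : Fin 4 × Fin 7 → k) (u : Fin 4 → k) :
    (gf (fun t => C (u t)) (lf (fun i => (X i : MvPolynomial (Fin 5) k)) (fun t => C (w t)))
      ).IsHomogeneous 3 := by
  have h : ∀ (a : k) (i j l : Fin 4), (C a * (lf (fun i => (X i : MvPolynomial (Fin 5) k))
      (fun t => C (w t)) i * lf (fun i => (X i : MvPolynomial (Fin 5) k))
      (fun t => C (w t)) j * lf (fun i => (X i : MvPolynomial (Fin 5) k))
      (fun t => C (w t)) l)).IsHomogeneous 3 :=
    fun a i j l => hC a (((lf_hom w i).mul (lf_hom w j)).mul (lf_hom w l))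
  unfold gf
  exact (((h _ _ _ _).add (h _ _ _ _)).add (h _ _ _ _)).add (h _ _ _ _)

theorem lam_hom (w : Fin 4 × Fin 7 → k) : (X 4 - (C (w (0, 0)) * X 0 + C (w (1, 0)) * X 1 +
    C (w (2, 0)) * X 2 + C (w (3, 0)) * X 3) : MvPolynomial (Fin 5) k).IsHomogeneous 1 :=
  (isHomogeneous_X k _).sub ((((hCX _ _).add (hCX _ _)).add (hCX _ _)).add (hCX _ _))

theorem Fam1_hom (w : Fin 4 × Fin 7 → k) (u : Fin 6 → k) (m : MvPolynomial (Fin 5) k)
    (hm : m.IsHomogeneous 1) : (Fam1 (fun i => X i) (fun t => C (w t)) (fun t => C (u t)) m :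
      MvPolynomial (Fin 5) k).IsHomogeneous 2 := by
  unfold Fam1
  exact (qf_hom w u).add ((lam_hom w).mul hm)

theorem Fam2_hom (w : Fin 4 × Fin 7 → k) (u : Fin 6 → k) (m : MvPolynomial (Fin 5) k)
    (hm : m.IsHomogeneous 2) : (Fam2 (fun i => X i) (fun t => C (w t)) (fun t => C (u t)) m :
      MvPolynomial (Fin 5) k).IsHomogeneous 3 := by
  unfold Fam2
  refine ((gf_hom w fun i => w (i, 5)).add ?_).add ((lam_hom w).mul hm)
  exact ((((hCX _ _).add (hCX _ _)).add (hCX _ _)).add (hCX _ _)).mul (qf_hom w u)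

theorem pl_hom (w : Fin 4 × Fin 7 → k) (z : Fin 3 → MvPolynomial (Fin 2) k)
    (hz : ∀ i, (z i).IsHomogeneous 2) (i : Fin 4) :
    (pl (fun t => C (w t)) z i).IsHomogeneous 2 := by
  fin_cases i
  · exact hC _ (hz 0)
  · exact hC _ (hz 1)
  · exact hC _ (hz 2)
  · exact (((hC _ (hz 0)).add (hC _ (hz 1))).add (hC _ (hz 2))).neg

theorem px_hom (w : Fin 4 × Fin 7 → k) (y : Fin 4 → MvPolynomial (Fin 2) k)
    (hy : ∀ i, (y i).IsHomogeneous 2) (i : Fin 4) :
    (px (fun t => C (w t)) y i).IsHomogeneous 6 := by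
  unfold px
  have h : (LM fun t => (C (w t) : MvPolynomial (Fin 2) k)).adjugate =
      (C : k →+* MvPolynomial (Fin 2) k).mapMatrix (LM w).adjugate := by
    rw [RingHom.map_adjugate, map_LM]
  rw [h]
  change (∑ j, C ((LM w).adjugate i j) * crem y j).IsHomogeneous 6
  refine IsHomogeneous.sum _ _ _ fun j _ => hC _ ?_
  fin_cases j
  · exact ((hy 1).mul (hy 2)).mul (hy 3)
  · exact ((hy 0).mul (hy 2)).mul (hy 3)
  · exact ((hy 0).mul (hy 1)).mul (hy 3)
  · exact ((hy 0).mul (hy 1)).mul (hy 2)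

theorem sx_hom (w : Fin 4 × Fin 7 → k) (y : Fin 4 → MvPolynomial (Fin 2) k)
    (hy : ∀ i, (y i).IsHomogeneous 2) (i : Fin 5) :
    (sx (fun t => C (w t)) y i).IsHomogeneous 6 := by
  fin_cases i
  · exact px_hom w y hy 0
  · exact px_hom w y hy 1
  · exact px_hom w y hy 2
  · exact px_hom w y hy 3
  · exact (((hC _ (px_hom w y hy 0)).add (hC _ (px_hom w y hy 1))).add
      (hC _ (px_hom w y hy 2))).add (hC _ (px_hom w y hy 3))

end Hom

theorem map_G1 {S : Type} [CommRing S] (f : MvPolynomial S23 ℚ →+* S) :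
    map f G1 = Fam1 (fun i => X i) (fun t => C (f (X (Sum.inl t))))
      (fun t => C (f (X (Sum.inr (Sum.inl t)))))
      (fm fun μ : Ex 5 1 => f (X (Sum.inr (Sum.inr (Sum.inl μ))))) := by
  unfold G1
  rw [map_Fam1, map_fm]
  simp only [map_X, map_C]

theorem map_G2 {S : Type} [CommRing S] (f : MvPolynomial S23 ℚ →+* S) :
    map f G2 = Fam2 (fun i => X i) (fun t => C (f (X (Sum.inl t))))
      (fun t => C (f (X (Sum.inr (Sum.inl t)))))
      (fm fun μ : Ex 5 2 => f (X (Sum.inr (Sum.inr (Sum.inr μ))))) := by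
  unfold G2
  rw [map_Fam2, map_fm]
  simp only [map_X, map_C]

/-- A very general complete intersection of type (2,3) contains a nonconstant rational curve. -/
theorem k23 (k : Type) [Field k] [IsAlgClosed k] [CharZero k] (F1 F2 : MvPolynomial (Fin 5) k)
    (hF1 : F1.IsHomogeneous 2) (hF2 : F2.IsHomogeneous 3)
    (ha : AlgebraicIndependent ℤ (Sum.elim (fun μ : Ex 5 2 => coeff μ.1 F1)
      fun μ : Ex 5 3 => coeff μ.1 F2)) :
    ∃ φ : Fin 5 → MvPolynomial (Fin 2) k, (∀ l, (φ l).IsHomogeneous 6) ∧ aeval φ F1 = 0 ∧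
      aeval φ F2 = 0 ∧ ∃ (l l' : Fin 5) (p q : Fin 2 → k),
        eval p (φ l) * eval q (φ l') ≠ eval q (φ l) * eval p (φ l') := by
  obtain ⟨p, hp, hh⟩ := lift k _ indep23 _ ha h23 h23_ne
  let f : MvPolynomial S23 ℚ →+* k := eval₂Hom (algebraMap ℚ k) p
  let w : Fin 4 × Fin 7 → k := fun t => p (Sum.inl t)
  let u : Fin 6 → k := fun t => p (Sum.inr (Sum.inl t))
  let m1 : MvPolynomial (Fin 5) k := fm fun μ : Ex 5 1 => p (Sum.inr (Sum.inr (Sum.inl μ)))
  let m2 : MvPolynomial (Fin 5) k := fm fun μ : Ex 5 2 => p (Sum.inr (Sum.inr (Sum.inr μ)))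
  have hfX : ∀ s, f (X s) = p s := fun s => eval₂_X _ _ _
  have hFG1 : F1 = Fam1 (fun i => X i) (fun t => C (w t)) (fun t => C (u t)) m1 := by
    refine form_ext hF1 (Fam1_hom w u _ (fm_hom _)) fun μ => ?_
    have h1 := map_G1 f
    simp only [hfX] at h1
    rw [← h1, coeff_map]
    exact (hp (Sum.inl μ)).symm
  have hFG2 : F2 = Fam2 (fun i => X i) (fun t => C (w t)) (fun t => C (u t)) m2 := by
    refine form_ext hF2 (Fam2_hom w u _ (fm_hom _)) fun μ => ?_
    have h1 := map_G2 f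
    simp only [hfX] at h1
    rw [← h1, coeff_map]
    exact (hp (Sum.inr μ)).symm
  have hh' : f h23 ≠ 0 := hh
  unfold h23 at hh'
  rw [map_hc] at hh'
  simp only [hfX] at hh'
  change hc w u ≠ 0 at hh'
  unfold hc at hh'
  obtain ⟨g1, hR3⟩ := mul_ne_zero_iff.1 hh'
  obtain ⟨g2, hR2⟩ := mul_ne_zero_iff.1 g1
  obtain ⟨g3, hR1⟩ := mul_ne_zero_iff.1 g2
  obtain ⟨g4, ha2⟩ := mul_ne_zero_iff.1 g3
  obtain ⟨g5, ha1⟩ := mul_ne_zero_iff.1 g4
  obtain ⟨g6, ha0⟩ := mul_ne_zero_iff.1 g5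
  obtain ⟨hdet, hw3⟩ := mul_ne_zero_iff.1 g6
  -- the point of the conic
  obtain ⟨ρ, hρ⟩ : ∃ ρ : k, wc w u (0, 4) * ρ ^ 2 + wc w u (2, 5) * ρ + wc w u (1, 4) = 0 := by
    obtain ⟨δ, hδ⟩ := IsAlgClosed.exists_pow_nat_eq
      (wc w u (2, 5) ^ 2 - 4 * wc w u (0, 4) * wc w u (1, 4)) (n := 2) two_pos
    refine ⟨(-wc w u (2, 5) + δ) / (2 * wc w u (0, 4)), ?_⟩
    field_simp
    linear_combination hδ
  let W : Fin 4 × Fin 7 → MvPolynomial (Fin 2) k := fun t => C (w t)
  let U : Fin 6 → MvPolynomial (Fin 2) k := fun t => C (u t)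
  have hWU : ∀ t, wc W U t = C (wc w u t) := fun t =>
    (map_wc (C : k →+* MvPolynomial (Fin 2) k) w u t).symm
  let Z : Fin 3 → MvPolynomial (Fin 2) k := yy (fun t => C (wc w u t)) (C ρ) (X 0) (X 1)
  have hZ : H95.qy (wc W U) Z = 0 := by
    rw [funext hWU]
    refine qy_yy _ _ _ _ ?_
    have h1 := congrArg (C : k →+* MvPolynomial (Fin 2) k) hρ
    simpa only [map_add, map_mul, map_pow, map_zero] using h1
  have hq : qy U (pl W Z) = 0 := qy_pl W U Z hZ
  have hg := pl_eq W Z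
  have hZ2 : ∀ i, (Z i).IsHomogeneous 2 := yy_hom (wc w u) ρ
  let φ : Fin 5 → MvPolynomial (Fin 2) k := sx W (pl W Z)
  let ψ : MvPolynomial (Fin 5) k →+* MvPolynomial (Fin 2) k :=
    (aeval φ : MvPolynomial (Fin 5) k →ₐ[k] MvPolynomial (Fin 2) k).toRingHom
  have hψX : (fun i => ψ (X i)) = φ := by
    funext i
    exact aeval_X _ _
  have hψC : ∀ a : k, ψ (C a) = C a := fun a => aeval_C _ _
  refine ⟨φ, sx_hom w (pl W Z) (pl_hom w Z hZ2), ?_, ?_, ?_⟩
  · change ψ F1 = 0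
    rw [hFG1, map_Fam1, hψX]
    simp only [hψC]
    exact Fam1_sx W U _ _ hq
  · change ψ F2 = 0
    rw [hFG2, map_Fam2, hψX]
    simp only [hψC]
    exact Fam2_sx W U _ _ hq hg
  · by_contra hcon
    push Not at hcon
    have key : ∀ (e : Fin 2 → k) (i : Fin 4), eval e (px W (pl W Z) i) =
        px w (pl w (yy (wc w u) ρ (e 0) (e 1))) i := by
      intro e i
      rw [map_px]
      simp only [W, Z, map_pl, map_yy, eval_C, eval_X]
    set y1 : Fin 4 → k := pl w (yy (wc w u) ρ 1 0) with hy1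
    set y2 : Fin 4 → k := pl w (yy (wc w u) ρ 0 1) with hy2
    have h1 : ∀ i j : Fin 4, px w y1 i * px w y2 j = px w y2 i * px w y1 j := by
      intro i j
      have h2 := hcon i.castSucc j.castSucc ![1, 0] ![0, 1]
      have h3 : ∀ i : Fin 4, φ i.castSucc = px W (pl W Z) i := by
        intro i
        fin_cases i <;> rfl
      rw [h3, h3, key, key, key, key] at h2
      exact h2
    have h4 : ((LM w).mulVec (px w y1) 2) * ((LM w).mulVec (px w y2) 0) =
        ((LM w).mulVec (px w y2) 2) * ((LM w).mulVec (px w y1) 0) := by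
      simp only [Matrix.mulVec, dotProduct, Finset.sum_mul_sum]
      refine Finset.sum_congr rfl fun i _ => Finset.sum_congr rfl fun j _ => ?_
      linear_combination (LM w 2 i * LM w 0 j) * h1 i j
    rw [LM_px, LM_px, LM_px, LM_px] at h4
    have a0 : yy (wc w u) ρ 1 0 0 = wc w u (0, 4) * ρ + wc w u (2, 5) := by
      change ((2 * wc w u (0, 4) * ρ + wc w u (2, 5)) * 1 +
        (wc w u (1, 5) * ρ + wc w u (0, 5)) * 0) * 1 -
        (wc w u (0, 4) * 1 ^ 2 + wc w u (2, 4) * 0 ^ 2 + wc w u (1, 5) * (1 * 0)) * ρ = _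
      ring
    have a1 : yy (wc w u) ρ 1 0 1 = -wc w u (0, 4) := by
      change -(wc w u (0, 4) * 1 ^ 2 + wc w u (2, 4) * 0 ^ 2 + wc w u (1, 5) * (1 * 0)) = _
      ring
    have a2 : yy (wc w u) ρ 1 0 2 = 0 := by
      change ((2 * wc w u (0, 4) * ρ + wc w u (2, 5)) * 1 +
        (wc w u (1, 5) * ρ + wc w u (0, 5)) * 0) * 0 = _
      ring
    have b0 : yy (wc w u) ρ 0 1 0 = -(wc w u (2, 4) * ρ) := by
      change ((2 * wc w u (0, 4) * ρ + wc w u (2, 5)) * 0 +
        (wc w u (1, 5) * ρ + wc w u (0, 5)) * 1) * 0 -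
        (wc w u (0, 4) * 0 ^ 2 + wc w u (2, 4) * 1 ^ 2 + wc w u (1, 5) * (0 * 1)) * ρ = _
      ring
    have b1 : yy (wc w u) ρ 0 1 1 = -wc w u (2, 4) := by
      change -(wc w u (0, 4) * 0 ^ 2 + wc w u (2, 4) * 1 ^ 2 + wc w u (1, 5) * (0 * 1)) = _
      ring
    have b2 : yy (wc w u) ρ 0 1 2 = wc w u (1, 5) * ρ + wc w u (0, 5) := by
      change ((2 * wc w u (0, 4) * ρ + wc w u (2, 5)) * 0 +
        (wc w u (1, 5) * ρ + wc w u (0, 5)) * 1) * 1 = _
      ring
    have c1 : crem y1 2 = (w (3, 5) * (wc w u (0, 4) * ρ + wc w u (2, 5))) *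
        (w (3, 5) * -wc w u (0, 4)) *
        (-(w (0, 5) * wc w u (0, 4) * ρ + (w (0, 5) * wc w u (2, 5) -
          w (1, 5) * wc w u (0, 4)))) := by
      change (w (3, 5) * yy (wc w u) ρ 1 0 0) * (w (3, 5) * yy (wc w u) ρ 1 0 1) *
        (-(w (0, 5) * yy (wc w u) ρ 1 0 0 + w (1, 5) * yy (wc w u) ρ 1 0 1 +
          w (2, 5) * yy (wc w u) ρ 1 0 2)) = _
      rw [a0, a1, a2]
      ring
    have c2 : crem y1 0 = 0 := by
      change (w (3, 5) * yy (wc w u) ρ 1 0 1) * (w (3, 5) * yy (wc w u) ρ 1 0 2) *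
        (-(w (0, 5) * yy (wc w u) ρ 1 0 0 + w (1, 5) * yy (wc w u) ρ 1 0 1 +
          w (2, 5) * yy (wc w u) ρ 1 0 2)) = _
      rw [a2]
      ring
    have c3 : crem y2 0 = (w (3, 5) * -wc w u (2, 4)) *
        (w (3, 5) * (wc w u (1, 5) * ρ + wc w u (0, 5))) *
        (-((w (2, 5) * wc w u (1, 5) - w (0, 5) * wc w u (2, 4)) * ρ +
          (w (2, 5) * wc w u (0, 5) - w (1, 5) * wc w u (2, 4)))) := by
      change (w (3, 5) * yy (wc w u) ρ 0 1 1) * (w (3, 5) * yy (wc w u) ρ 0 1 2) *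
        (-(w (0, 5) * yy (wc w u) ρ 0 1 0 + w (1, 5) * yy (wc w u) ρ 0 1 1 +
          w (2, 5) * yy (wc w u) ρ 0 1 2)) = _
      rw [b0, b1, b2]
      ring
    have n0 : wc w u (0, 4) * ρ + wc w u (2, 5) ≠ 0 := by
      intro h0
      apply ha1
      linear_combination hρ - ρ * h0
    have n1 := RR_ne _ _ _ _ _ ρ hρ hR1
    have n2 := RR_ne _ _ _ _ _ ρ hρ hR2
    have n3 := RR_ne _ _ _ _ _ ρ hρ hR3
    rw [c2, mul_zero, mul_zero, c1, c3] at h4
    refine absurd h4 ?_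
    refine mul_ne_zero (mul_ne_zero hdet (mul_ne_zero (mul_ne_zero (mul_ne_zero hw3 n0)
      (mul_ne_zero hw3 (neg_ne_zero.2 ha0))) (neg_ne_zero.2 n2)))
      (mul_ne_zero hdet (mul_ne_zero (mul_ne_zero (mul_ne_zero hw3 (neg_ne_zero.2 ha2))
      (mul_ne_zero hw3 n1)) (neg_ne_zero.2 n3)))

/-- The same in the format of the library. -/
theorem ratCurve23 (k : Type) [Field k] [IsAlgClosed k] [CharZero k] (d : Fin 2 → ℕ)
    (hd0 : d 0 = 2) (hd1 : d 1 = 3) (F : Fin 2 → MvPolynomial (Fin (4 + 1)) k)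
    (hF : ∀ m, (F m).IsHomogeneous (d m))
    (ha : AlgebraicIndependent ℤ
      (fun s : {s : Fin 2 × (Fin (4 + 1) →₀ ℕ) // s.2.degree = d s.1} => coeff s.1.2 (F s.1.1))) :
    H87.RatCurve k 4 F := by
  have h1 : AlgebraicIndependent ℤ (Sum.elim (fun μ : Ex 5 2 => coeff μ.1 (F 0))
      fun μ : Ex 5 3 => coeff μ.1 (F 1)) := by
    have h := ha.comp (Sum.elim (fun μ : Ex 5 2 =>
      (⟨(0, μ.1), μ.2.trans hd0.symm⟩ :
        {s : Fin 2 × (Fin (4 + 1) →₀ ℕ) // s.2.degree = d s.1}))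
      (fun μ : Ex 5 3 => ⟨(1, μ.1), μ.2.trans hd1.symm⟩)) ?_
    · convert h using 1
      funext s
      rcases s with μ | μ <;> rfl
    · rintro (μ | μ) (ν | ν) h
      · exact congrArg Sum.inl (Subtype.ext (congrArg
          (fun s : {s : Fin 2 × (Fin (4 + 1) →₀ ℕ) // s.2.degree = d s.1} => s.1.2) h))
      · exact absurd (congrArg
          (fun s : {s : Fin 2 × (Fin (4 + 1) →₀ ℕ) // s.2.degree = d s.1} => s.1.1) h)
          (by simp)
      · exact absurd (congrArg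
          (fun s : {s : Fin 2 × (Fin (4 + 1) →₀ ℕ) // s.2.degree = d s.1} => s.1.1) h)
          (by simp)
      · exact congrArg Sum.inr (Subtype.ext (congrArg
          (fun s : {s : Fin 2 × (Fin (4 + 1) →₀ ℕ) // s.2.degree = d s.1} => s.1.2) h))
  obtain ⟨φ, h2, h3, h4, h5⟩ := k23 k (F 0) (F 1) (by
    have h := hF 0
    rwa [hd0] at h) (by
    have h := hF 1
    rwa [hd1] at h) h1
  refine ⟨6, φ, h2, fun j => ?_, h5⟩
  fin_cases j
  · exact h3
  · exact h4

end Pool.Agent.LX.H95.K23
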