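import Pool.Agent.Lib.MP_c7af3c_ag.LX.H95.QuarticCurve

/-!
# MP_c7af3c_ag: a very general quartic surface contains a rational curve: the theorem
-/

set_option autoImplicit false

namespace Pool.Agent.LX.H95

open MvPolynomial TrivSqZeroExt

section Maps

variable {S S' : Type} [CommRing S] [CommRing S'] (f : S →+* S')

theorem map_crem (y : Fin 3 → S) (i : Fin 3) : f (crem y i) = crem (fun j => f (y j)) i := by
  fin_cases i
  · exact map_mul f _ _
  · exact map_mul f _ _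
  · exact map_mul f _ _

theorem map_px (w : Fin 3 × Fin 6 → S) (y : Fin 3 → S) (i : Fin 3) :
    f (px w y i) = px (fun t => f (w t)) (fun j => f (y j)) i := by
  unfold px
  have h : (LM fun t => f (w t)).adjugate = f.mapMatrix (LM w).adjugate := by
    rw [← map_LM f w, RingHom.map_adjugate]
  rw [h]
  change f (∑ j, (LM w).adjugate i j * crem y j) =
    ∑ j, f ((LM w).adjugate i j) * crem (fun j => f (y j)) j
  rw [map_sum]
  exact Finset.sum_congr rfl fun j _ => by rw [map_mul, map_crem]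

theorem map_sx (w : Fin 3 × Fin 6 → S) (y : Fin 3 → S) (i : Fin 4) :
    f (sx w y i) = sx (fun t => f (w t)) (fun j => f (y j)) i := by
  fin_cases i
  · exact map_px f w y 0
  · exact map_px f w y 1
  · exact map_px f w y 2
  · change f (w (0, 0) * px w y 0 + w (1, 0) * px w y 1 + w (2, 0) * px w y 2) = _
    rw [map_add, map_add, map_mul, map_mul, map_mul, map_px, map_px, map_px]
    rfl

theorem map_yy (w : Fin 3 × Fin 6 → S) (ρ s t : S) (i : Fin 3) :
    f (yy w ρ s t i) = yy (fun t => f (w t)) (f ρ) (f s) (f t) i := by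
  fin_cases i
  · change f (((2 * w (0, 4) * ρ + w (2, 5)) * s + (w (1, 5) * ρ + w (0, 5)) * t) * s -
      (w (0, 4) * s ^ 2 + w (2, 4) * t ^ 2 + w (1, 5) * (s * t)) * ρ) = _
    simp only [map_sub, map_add, map_mul, map_pow, map_ofNat]
    rfl
  · change f (-(w (0, 4) * s ^ 2 + w (2, 4) * t ^ 2 + w (1, 5) * (s * t))) = _
    simp only [map_neg, map_add, map_mul, map_pow]
    rfl
  · change f (((2 * w (0, 4) * ρ + w (2, 5)) * s + (w (1, 5) * ρ + w (0, 5)) * t) * t) = _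
    simp only [map_add, map_mul, map_ofNat]
    rfl

end Maps

section Hom

variable {k : Type} [Field k]

theorem hCX {n : ℕ} (a : k) (i : Fin n) : (C a * X i : MvPolynomial (Fin n) k).IsHomogeneous 1 := by
  simpa using (isHomogeneous_C (Fin n) a).mul (isHomogeneous_X k i)

theorem Fam_hom (w : Fin 3 × Fin 6 → k) (g : MvPolynomial (Fin 4) k) (hg : g.IsHomogeneous 3) :
    (Fam (fun i => X i) (fun t => C (w t)) g : MvPolynomial (Fin 4) k).IsHomogeneous 4 := by
  have hl : ∀ i : Fin 3, (C (w (i, 1)) * X 0 + C (w (i, 2)) * X 1 + C (w (i, 3)) * X 2 :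
      MvPolynomial (Fin 4) k).IsHomogeneous 1 := fun i => ((hCX _ _).add (hCX _ _)).add (hCX _ _)
  have h1 : ∀ (a : k) (i j : Fin 3), (C a * ((C (w (i, 1)) * X 0 + C (w (i, 2)) * X 1 +
      C (w (i, 3)) * X 2) * (C (w (j, 1)) * X 0 + C (w (j, 2)) * X 1 + C (w (j, 3)) * X 2)) ^ 2 :
      MvPolynomial (Fin 4) k).IsHomogeneous 4 := by
    intro a i j
    have h := (isHomogeneous_C (Fin 4) a).mul (((hl i).mul (hl j)).pow 2)
    simpa using h
  have h2 : ∀ (a : k) (i j i' j' : Fin 3), (C a * ((C (w (i, 1)) * X 0 + C (w (i, 2)) * X 1 +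
      C (w (i, 3)) * X 2) * (C (w (j, 1)) * X 0 + C (w (j, 2)) * X 1 + C (w (j, 3)) * X 2) *
      ((C (w (i', 1)) * X 0 + C (w (i', 2)) * X 1 +
      C (w (i', 3)) * X 2) * (C (w (j', 1)) * X 0 + C (w (j', 2)) * X 1 + C (w (j', 3)) * X 2))) :
      MvPolynomial (Fin 4) k).IsHomogeneous 4 := by
    intro a i j i' j'
    have h := (isHomogeneous_C (Fin 4) a).mul (((hl i).mul (hl j)).mul ((hl i').mul (hl j')))
    simpa using h
  unfold Fam
  refine IsHomogeneous.add ?_ ?_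
  · have h3 : (X 3 - (C (w (0, 0)) * X 0 + C (w (1, 0)) * X 1 + C (w (2, 0)) * X 2) :
        MvPolynomial (Fin 4) k).IsHomogeneous 1 :=
      (isHomogeneous_X k _).sub (((hCX _ _).add (hCX _ _)).add (hCX _ _))
    exact h3.mul hg
  · unfold qf
    exact (((((h1 _ _ _).add (h1 _ _ _)).add (h1 _ _ _)).add (h2 _ _ _ _ _)).add
      (h2 _ _ _ _ _)).add (h2 _ _ _ _ _)

theorem yy_hom (w : Fin 3 × Fin 6 → k) (ρ : k) (i : Fin 3) :
    (yy (fun t => C (w t)) (C ρ) (X 0) (X 1) i : MvPolynomial (Fin 2) k).IsHomogeneous 2 := by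
  have hQ : (C (w (0, 4)) * X 0 ^ 2 + C (w (2, 4)) * X 1 ^ 2 + C (w (1, 5)) * (X 0 * X 1) :
      MvPolynomial (Fin 2) k).IsHomogeneous 2 := by
    have h1 : ∀ (a : k) (i : Fin 2), (C a * X i ^ 2 : MvPolynomial (Fin 2) k).IsHomogeneous 2 := by
      intro a i
      simpa using (isHomogeneous_C (Fin 2) a).mul ((isHomogeneous_X k i).pow 2)
    have h2 : (C (w (1, 5)) * (X 0 * X 1) : MvPolynomial (Fin 2) k).IsHomogeneous 2 := by
      simpa using (isHomogeneous_C (Fin 2) (w (1, 5))).mul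
        ((isHomogeneous_X k 0).mul (isHomogeneous_X k 1))
    exact ((h1 _ _).add (h1 _ _)).add h2
  have hβ : ((2 * C (w (0, 4)) * C ρ + C (w (2, 5))) * X 0 + (C (w (1, 5)) * C ρ +
      C (w (0, 5))) * X 1 : MvPolynomial (Fin 2) k).IsHomogeneous 1 := by
    have e1 : (2 * C (w (0, 4)) * C ρ + C (w (2, 5)) : MvPolynomial (Fin 2) k) =
        C (2 * w (0, 4) * ρ + w (2, 5)) := by
      simp only [map_add, map_mul, map_ofNat]
    have e2 : (C (w (1, 5)) * C ρ + C (w (0, 5)) : MvPolynomial (Fin 2) k) =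
        C (w (1, 5) * ρ + w (0, 5)) := by
      simp only [map_add, map_mul]
    rw [e1, e2]
    exact (hCX _ _).add (hCX _ _)
  fin_cases i
  · refine IsHomogeneous.sub (hβ.mul (isHomogeneous_X k 0)) ?_
    simpa using hQ.mul (isHomogeneous_C (Fin 2) ρ)
  · exact hQ.neg
  · exact hβ.mul (isHomogeneous_X k 1)

theorem px_hom (w : Fin 3 × Fin 6 → k) (y : Fin 3 → MvPolynomial (Fin 2) k)
    (hy : ∀ i, (y i).IsHomogeneous 2) (i : Fin 3) :
    (px (fun t => C (w t)) y i).IsHomogeneous 4 := by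
  unfold px
  have h : (LM fun t => (C (w t) : MvPolynomial (Fin 2) k)).adjugate =
      (C : k →+* MvPolynomial (Fin 2) k).mapMatrix (LM w).adjugate := by
    rw [RingHom.map_adjugate, map_LM]
  rw [h]
  change (∑ j, C ((LM w).adjugate i j) * crem y j).IsHomogeneous 4
  refine IsHomogeneous.sum _ _ _ fun j _ => ?_
  have h2 : (crem y j).IsHomogeneous 4 := by
    fin_cases j
    · exact (hy 1).mul (hy 2)
    · exact (hy 0).mul (hy 2)
    · exact (hy 0).mul (hy 1)
  simpa using (isHomogeneous_C (Fin 2) ((LM w).adjugate i j)).mul h2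

theorem sx_hom (w : Fin 3 × Fin 6 → k) (y : Fin 3 → MvPolynomial (Fin 2) k)
    (hy : ∀ i, (y i).IsHomogeneous 2) (i : Fin 4) :
    (sx (fun t => C (w t)) y i).IsHomogeneous 4 := by
  have h : ∀ (a : k) (i : Fin 3), (C a * px (fun t => C (w t)) y i).IsHomogeneous 4 := by
    intro a i
    simpa using (isHomogeneous_C (Fin 2) a).mul (px_hom w y hy i)
  fin_cases i
  · exact px_hom w y hy 0
  · exact px_hom w y hy 1
  · exact px_hom w y hy 2
  · exact ((h _ 0).add (h _ 1)).add (h _ 2)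

end Hom

/-- A very general quartic surface contains a nonconstant rational curve. -/
theorem quartic (k : Type) [Field k] [IsAlgClosed k] [CharZero k] (F : MvPolynomial (Fin 4) k)
    (hF : F.IsHomogeneous 4) (ha : AlgebraicIndependent ℤ fun μ : Ex 4 4 => coeff μ.1 F) :
    ∃ φ : Fin 4 → MvPolynomial (Fin 2) k, (∀ l, (φ l).IsHomogeneous 4) ∧ aeval φ F = 0 ∧
      ∃ (l l' : Fin 4) (p q : Fin 2 → k),
        eval p (φ l) * eval q (φ l') ≠ eval q (φ l) * eval p (φ l') := by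
  obtain ⟨p, hp, hh⟩ := lift k _ indep4 _ ha h4 h4_ne
  let f : MvPolynomial S4 ℚ →+* k := eval₂Hom (algebraMap ℚ k) p
  let w : Fin 3 × Fin 6 → k := fun t => p (Sum.inl t)
  have hfX : ∀ s, f (X s) = p s := fun s => eval₂_X _ _ _
  have hFG : F = Fam (fun i => X i) (fun t => C (w t)) (fm fun μ : Ex 4 3 => p (Sum.inr μ)) := by
    refine form_ext hF (Fam_hom w _ (fm_hom _)) fun μ => ?_
    have h1 := map_G4 f
    simp only [hfX] at h1
    rw [← h1, coeff_map]
    exact (hp μ).symm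
  have hh' : f h4 ≠ 0 := hh
  rw [map_h4] at hh'
  simp only [hfX] at hh'
  obtain ⟨hh1, hr⟩ := mul_ne_zero_iff.1 hh'
  obtain ⟨hh2, ha2⟩ := mul_ne_zero_iff.1 hh1
  obtain ⟨hh3, ha1⟩ := mul_ne_zero_iff.1 hh2
  obtain ⟨hdet, ha0⟩ := mul_ne_zero_iff.1 hh3
  change (LM w).det ≠ 0 at hdet
  change w (0, 4) ≠ 0 at ha0
  change w (1, 4) ≠ 0 at ha1
  change w (2, 4) ≠ 0 at ha2
  change w (0, 4) * w (0, 5) ^ 2 - w (2, 5) * w (0, 5) * w (1, 5) + w (1, 4) * w (1, 5) ^ 2 ≠ 0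
    at hr
  -- the point of the conic
  obtain ⟨ρ, hρ⟩ : ∃ ρ : k, w (0, 4) * ρ ^ 2 + w (2, 5) * ρ + w (1, 4) = 0 := by
    obtain ⟨δ, hδ⟩ := IsAlgClosed.exists_pow_nat_eq (w (2, 5) ^ 2 - 4 * w (0, 4) * w (1, 4))
      (n := 2) two_pos
    refine ⟨(-w (2, 5) + δ) / (2 * w (0, 4)), ?_⟩
    field_simp
    linear_combination hδ
  let Y : Fin 3 → MvPolynomial (Fin 2) k := yy (fun t => C (w t)) (C ρ) (X 0) (X 1)
  have hY : qy (fun t => (C (w t) : MvPolynomial (Fin 2) k)) Y = 0 := by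
    refine qy_yy _ _ _ _ ?_
    have h1 := congrArg (C : k →+* MvPolynomial (Fin 2) k) hρ
    simpa only [map_add, map_mul, map_pow, map_zero] using h1
  refine ⟨sx (fun t => C (w t)) Y, sx_hom w Y (yy_hom w ρ), ?_, ?_⟩
  · rw [hFG]
    have h1 := map_Fam (aeval (sx (fun t => C (w t)) Y) :
      MvPolynomial (Fin 4) k →ₐ[k] MvPolynomial (Fin 2) k).toRingHom (fun i => X i)
      (fun t => C (w t)) (fm fun μ : Ex 4 3 => p (Sum.inr μ))
    refine h1.trans ?_
    have h2 : (fun i => (aeval (sx (fun t => C (w t)) Y) :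
      MvPolynomial (Fin 4) k →ₐ[k] MvPolynomial (Fin 2) k).toRingHom (X i)) =
        sx (fun t => C (w t)) Y := by
      funext i
      exact aeval_X _ _
    have h3 : (fun t => (aeval (sx (fun t => C (w t)) Y) :
      MvPolynomial (Fin 4) k →ₐ[k] MvPolynomial (Fin 2) k).toRingHom (C (w t))) =
        fun t => C (w t) := by
      funext t
      exact aeval_C _ _
    rw [h2, h3]
    exact Fam_sx _ _ hY _
  · by_contra hcon
    push Not at hcon
    have key : ∀ (u : Fin 2 → k) (i : Fin 3), eval u (px (fun t => C (w t)) Y i) =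
        px w (yy w ρ (u 0) (u 1)) i := by
      intro u i
      rw [map_px]
      simp only [Y, map_yy, eval_C, eval_X]
    have h1 : ∀ i j : Fin 3, px w (yy w ρ 1 0) i * px w (yy w ρ 0 1) j =
        px w (yy w ρ 0 1) i * px w (yy w ρ 1 0) j := by
      intro i j
      have h2 := hcon i.castSucc j.castSucc ![1, 0] ![0, 1]
      have h3 : ∀ i : Fin 3, sx (fun t => (C (w t) : MvPolynomial (Fin 2) k)) Y i.castSucc =
          px (fun t => C (w t)) Y i := by
        intro i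
        fin_cases i <;> rfl
      rw [h3, h3, key, key, key, key] at h2
      exact h2
    have h4 : ((LM w).mulVec (px w (yy w ρ 1 0)) 2) * ((LM w).mulVec (px w (yy w ρ 0 1)) 0) =
        ((LM w).mulVec (px w (yy w ρ 0 1)) 2) * ((LM w).mulVec (px w (yy w ρ 1 0)) 0) := by
      simp only [Matrix.mulVec, dotProduct, Fin.sum_univ_three]
      linear_combination (LM w 2 0 * LM w 0 0) * h1 0 0 + (LM w 2 0 * LM w 0 1) * h1 0 1 +
        (LM w 2 0 * LM w 0 2) * h1 0 2 + (LM w 2 1 * LM w 0 0) * h1 1 0 +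
        (LM w 2 1 * LM w 0 1) * h1 1 1 + (LM w 2 1 * LM w 0 2) * h1 1 2 +
        (LM w 2 2 * LM w 0 0) * h1 2 0 + (LM w 2 2 * LM w 0 1) * h1 2 1 +
        (LM w 2 2 * LM w 0 2) * h1 2 2
    rw [LM_px, LM_px, LM_px, LM_px] at h4
    have c1 : crem (yy w ρ 1 0) 2 = (w (0, 4) * ρ + w (2, 5)) * (-w (0, 4)) := by
      change (((2 * w (0, 4) * ρ + w (2, 5)) * 1 + (w (1, 5) * ρ + w (0, 5)) * 0) * 1 -
        (w (0, 4) * 1 ^ 2 + w (2, 4) * 0 ^ 2 + w (1, 5) * (1 * 0)) * ρ) *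
        (-(w (0, 4) * 1 ^ 2 + w (2, 4) * 0 ^ 2 + w (1, 5) * (1 * 0))) = _
      ring
    have c2 : crem (yy w ρ 1 0) 0 = 0 := by
      change (-(w (0, 4) * 1 ^ 2 + w (2, 4) * 0 ^ 2 + w (1, 5) * (1 * 0))) *
        (((2 * w (0, 4) * ρ + w (2, 5)) * 1 + (w (1, 5) * ρ + w (0, 5)) * 0) * 0) = _
      ring
    have c3 : crem (yy w ρ 0 1) 0 = (-w (2, 4)) * (w (1, 5) * ρ + w (0, 5)) := by
      change (-(w (0, 4) * 0 ^ 2 + w (2, 4) * 1 ^ 2 + w (1, 5) * (0 * 1))) *
        (((2 * w (0, 4) * ρ + w (2, 5)) * 0 + (w (1, 5) * ρ + w (0, 5)) * 1) * 1) = _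
      ring
    rw [c1, c2, c3, mul_zero, mul_zero] at h4
    have n1 : w (0, 4) * ρ + w (2, 5) ≠ 0 := by
      intro h0
      apply ha1
      linear_combination hρ - ρ * h0
    have n2 : w (1, 5) * ρ + w (0, 5) ≠ 0 := by
      intro h0
      apply hr
      linear_combination (w (1, 5) ^ 2) * hρ -
        (w (0, 4) * (w (1, 5) * ρ - w (0, 5)) + w (2, 5) * w (1, 5)) * h0
    refine absurd h4 ?_
    exact mul_ne_zero (mul_ne_zero hdet (mul_ne_zero n1 (neg_ne_zero.2 ha0)))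
      (mul_ne_zero hdet (mul_ne_zero (neg_ne_zero.2 ha2) n2))

/-- The same in the format of the library. -/
theorem ratCurve4 (k : Type) [Field k] [IsAlgClosed k] [CharZero k] (d : Fin 1 → ℕ)
    (hd : d 0 = 4) (F : Fin 1 → MvPolynomial (Fin (3 + 1)) k) (hF : ∀ m, (F m).IsHomogeneous (d m))
    (ha : AlgebraicIndependent ℤ
      (fun s : {s : Fin 1 × (Fin (3 + 1) →₀ ℕ) // s.2.degree = d s.1} => coeff s.1.2 (F s.1.1))) :
    H87.RatCurve k 3 F := by
  have h1 : AlgebraicIndependent ℤ fun μ : Ex 4 4 => coeff μ.1 (F 0) :=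
    ha.comp (fun μ : Ex 4 4 => ⟨(0, μ.1), μ.2.trans hd.symm⟩) fun μ ν h => Subtype.ext
      (congrArg (fun s : {s : Fin 1 × (Fin (3 + 1) →₀ ℕ) // s.2.degree = d s.1} => s.1.2) h)
  obtain ⟨φ, h2, h3, h4⟩ := quartic k (F 0) (by
    have h := hF 0
    rwa [hd] at h) h1
  refine ⟨4, φ, h2, fun j => ?_, h4⟩
  rw [Subsingleton.elim j 0]
  exact h3

end Pool.Agent.LX.H95
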