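import Mathlib

/-!
# MP_c7af3c_ag: a generic point of the image of a dominant polynomial map has a preimage
The polynomials `c s` over `ℚ` are algebraically independent, `a s` are algebraically independent
elements of an algebraically closed field `k`. Then there is a point `p` over `k` with
`c s (p) = a s` for all `s`, and one can avoid the zeros of a nonzero polynomial `h`.
-/

set_option autoImplicit false

namespace Pool.Agent.LX.H95

open MvPolynomial
open scoped TensorProduct

/-- Two field extensions have a common extension. -/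
theorem amalg (E0 E k : Type) [Field E0] [Field E] [Field k] (f : E0 →+* E) (g : E0 →+* k) :
    ∃ (K : Type) (_ : Field K) (f' : E →+* K) (g' : k →+* K), f'.comp f = g'.comp g := by
  let _ := f.toAlgebra
  let _ := g.toAlgebra
  obtain ⟨m, hm⟩ := Ideal.exists_maximal (k ⊗[E0] E)
  let _ : Field ((k ⊗[E0] E) ⧸ m) := Ideal.Quotient.field m
  refine ⟨(k ⊗[E0] E) ⧸ m, inferInstance,
    (Ideal.Quotient.mk m).comp (Algebra.TensorProduct.includeRight : E →ₐ[E0] k ⊗[E0] E).toRingHom,
    (Ideal.Quotient.mk m).comp (Algebra.TensorProduct.includeLeft : k →ₐ[E0] k ⊗[E0] E).toRingHom,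
    ?_⟩
  ext a
  simp only [RingHom.comp_apply]
  congr 1
  have h1 := (Algebra.TensorProduct.includeRight : E →ₐ[E0] k ⊗[E0] E).commutes a
  have h2 := (Algebra.TensorProduct.includeLeft : k →ₐ[E0] k ⊗[E0] E).commutes a
  exact h1.trans h2.symm

/-- lifting of a generic point -/
theorem lift (k : Type) [Field k] [IsAlgClosed k] [CharZero k] {σ ι : Type} [Finite σ]
    (c : ι → MvPolynomial σ ℚ) (hc : AlgebraicIndependent ℚ c) (a : ι → k)
    (ha : AlgebraicIndependent ℤ a) (h : MvPolynomial σ ℚ) (hh : h ≠ 0) :
    ∃ p : σ → k, (∀ s, eval₂ (algebraMap ℚ k) p (c s) = a s) ∧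
      eval₂ (algebraMap ℚ k) p h ≠ 0 := by
  classical
  have hB : AlgebraicIndependent ℤ c := hc.restrictScalars (algebraMap ℤ ℚ).injective_int
  let A : Type := MvPolynomial ι ℤ
  let B : Type := MvPolynomial σ ℚ
  let α : A →+* k := (aeval a : MvPolynomial ι ℤ →ₐ[ℤ] k).toRingHom
  let β : A →+* FractionRing B := (algebraMap B (FractionRing B)).comp
    (aeval c : MvPolynomial ι ℤ →ₐ[ℤ] B).toRingHom
  have hα : Function.Injective α := ha
  have hβ : Function.Injective β := (IsFractionRing.injective B (FractionRing B)).comp hB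
  obtain ⟨K, _, f, g, hfg⟩ := amalg (FractionRing A) (FractionRing B) k
    (IsFractionRing.lift hβ) (IsFractionRing.lift hα)
  have key : ∀ s, f (algebraMap B (FractionRing B) (c s)) = g (a s) := by
    intro s
    have h1 := congrArg (fun φ : FractionRing A →+* K => φ (algebraMap A (FractionRing A) (X s)))
      hfg
    simp only [RingHom.comp_apply, IsFractionRing.lift_algebraMap] at h1
    have h2 : β (X s) = algebraMap B (FractionRing B) (c s) := by
      change algebraMap B (FractionRing B) (aeval c (X s)) = _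
      rw [aeval_X]
    have h3 : α (X s) = a s := by
      change aeval a (X s) = _
      rw [aeval_X]
    rw [h2, h3] at h1
    exact h1
  let φ : B →+* K := f.comp (algebraMap B (FractionRing B))
  have hφ : Function.Injective φ := f.injective.comp (IsFractionRing.injective B (FractionRing B))
  -- the point over `K`
  let w : Option σ → K := fun t => t.elim (φ h)⁻¹ fun s => φ (X s)
  have hev : ∀ q : B, eval₂ g w (map (algebraMap ℚ k) (rename some q)) = φ q := by
    intro q
    rw [eval₂_map, eval₂_rename]
    have h1 : (eval₂Hom (g.comp (algebraMap ℚ k)) (w ∘ some) : B →+* K) = φ := by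
      refine MvPolynomial.ringHom_ext (fun r => ?_) (fun s => ?_)
      · rw [coe_eval₂Hom, eval₂_C]
        exact congrArg (fun ψ : ℚ →+* K => ψ r)
          (Subsingleton.elim (g.comp (algebraMap ℚ k)) (φ.comp C))
      · rw [coe_eval₂Hom, eval₂_X]
        rfl
    exact congrArg (fun ψ : B →+* K => ψ q) h1
  let J : Ideal (MvPolynomial (Option σ) k) := Ideal.span
    ({X none * map (algebraMap ℚ k) (rename some h) - 1} ∪
      Set.range fun s => map (algebraMap ℚ k) (rename some (c s)) - C (a s))
  have hle : J ≤ RingHom.ker (eval₂Hom g w) := by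
    rw [Ideal.span_le]
    rintro q (hq | ⟨s, rfl⟩)
    · rw [Set.mem_singleton_iff] at hq
      rw [hq, SetLike.mem_coe, RingHom.mem_ker, map_sub, map_mul, map_one, coe_eval₂Hom, eval₂_X,
        hev]
      have h1 : φ h ≠ 0 := fun h0 => hh (hφ (h0.trans (map_zero φ).symm))
      change (φ h)⁻¹ * φ h - 1 = 0
      rw [inv_mul_cancel₀ h1, sub_self]
    · rw [SetLike.mem_coe, RingHom.mem_ker, map_sub, coe_eval₂Hom, hev, eval₂_C, sub_eq_zero]
      exact key s
  have hne : J ≠ ⊤ := by
    intro h1
    have h2 : (1 : MvPolynomial (Option σ) k) ∈ RingHom.ker (eval₂Hom g w) :=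
      hle (by rw [h1]; trivial)
    rw [RingHom.mem_ker, map_one] at h2
    exact one_ne_zero h2
  obtain ⟨M, hM, hIM⟩ := Ideal.exists_le_maximal J hne
  obtain ⟨z, hz⟩ := isMaximal_iff_eq_vanishingIdeal_singleton.1 hM
  have hz0 : ∀ q ∈ J, eval z q = 0 := by
    intro q hq
    have h1 := hIM hq
    rw [hz, mem_vanishingIdeal_singleton_iff] at h1
    rwa [aeval_eq_eval] at h1
  have hev' : ∀ q : B, eval z (map (algebraMap ℚ k) (rename some q)) =
      eval₂ (algebraMap ℚ k) (fun s => z (some s)) q := by
    intro q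
    rw [eval_map, eval₂_rename]
    rfl
  refine ⟨fun s => z (some s), fun s => ?_, fun h0 => ?_⟩
  · have h1 := hz0 _ (Ideal.subset_span (Or.inr ⟨s, rfl⟩))
    rw [map_sub, hev', eval_C, sub_eq_zero] at h1
    exact h1
  · have h1 := hz0 _ (Ideal.subset_span (Or.inl rfl))
    rw [map_sub, map_mul, hev', map_one, h0, mul_zero, zero_sub, neg_eq_zero] at h1
    exact one_ne_zero h1

end Pool.Agent.LX.H95
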