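import Pool.Agent.Lib.MP_c7af3c_ag.LX.H87.Jac
import Pool.Agent.Lib.MP_c7af3c_ag.LX.H95.Lift

/-!
# MP_c7af3c_ag: forms with given coefficients, and derivatives of families of forms
-/

set_option autoImplicit false

namespace Pool.Agent.LX.H95

open MvPolynomial TrivSqZeroExt

/-- exponents of degree `e` in `n` variables -/
abbrev Ex (n e : ℕ) : Type := {μ : Fin n →₀ ℕ // μ.degree = e}

theorem ex_le {n e : ℕ} (μ : Ex n e) (i : Fin n) : μ.1 i ≤ e := by
  have h := μ.2
  rw [Finsupp.degree_eq_sum] at h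
  exact (Finset.single_le_sum (f := fun i => μ.1 i) (fun _ _ => Nat.zero_le _)
    (Finset.mem_univ i)).trans_eq h

instance (n e : ℕ) : Finite (Ex n e) := by
  refine Finite.of_injective
    (fun μ : Ex n e => fun i : Fin n => (⟨μ.1 i, Nat.lt_succ_of_le (ex_le μ i)⟩ : Fin (e + 1))) ?_
  intro μ ν h
  refine Subtype.ext (Finsupp.ext fun i => ?_)
  exact congrArg Fin.val (congrFun h i)

noncomputable instance (n e : ℕ) : Fintype (Ex n e) := Fintype.ofFinite _

section

variable {R : Type} [CommRing R] {n e : ℕ}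

/-- the form with the given coefficients -/
noncomputable def fm (t : Ex n e → R) : MvPolynomial (Fin n) R := ∑ μ, monomial μ.1 (t μ)

theorem coeff_fm (t : Ex n e → R) (μ : Ex n e) : coeff μ.1 (fm t) = t μ := by
  classical
  unfold fm
  rw [coeff_sum, Finset.sum_eq_single μ]
  · rw [coeff_monomial, if_pos rfl]
  · intro ν _ hν
    rw [coeff_monomial, if_neg fun h => hν (Subtype.ext h)]
  · intro h
    exact absurd (Finset.mem_univ μ) h

theorem fm_hom (t : Ex n e → R) : (fm t).IsHomogeneous e := by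
  refine IsHomogeneous.sum _ _ _ fun μ _ => ?_
  exact isHomogeneous_monomial _ μ.2

theorem fm_eq (G : MvPolynomial (Fin n) R) (hG : G.IsHomogeneous e) :
    fm (fun μ : Ex n e => coeff μ.1 G) = G := by
  classical
  ext μ
  by_cases h : μ.degree = e
  · exact coeff_fm (fun μ : Ex n e => coeff μ.1 G) ⟨μ, h⟩
  · have h1 : coeff μ (fm (fun μ : Ex n e => coeff μ.1 G)) = 0 :=
      (fm_hom _).coeff_eq_zero h
    rw [h1, hG.coeff_eq_zero h]

theorem map_fm {R' : Type} [CommRing R'] (f : R →+* R') (t : Ex n e → R) :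
    map f (fm t) = fm (fun μ => f (t μ)) := by
  unfold fm
  rw [map_sum]
  exact Finset.sum_congr rfl fun μ _ => map_monomial _ _ _

/-- equality of forms from equality of coefficients -/
theorem form_ext {G H : MvPolynomial (Fin n) R} (hG : G.IsHomogeneous e) (hH : H.IsHomogeneous e)
    (h : ∀ μ : Ex n e, coeff μ.1 G = coeff μ.1 H) : G = H := by
  rw [← fm_eq G hG, ← fm_eq H hH]
  congr 1
  funext μ
  exact h μ

end

section

variable {n : ℕ} {σ : Type}

/-- the polynomial ring over `ℚ` -/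
abbrev Sq (n : ℕ) : Type := MvPolynomial (Fin n) ℚ

/-- a dual number as a dual number with constant coefficients -/
noncomputable def dC (n : ℕ) : DualNumber ℚ →+* DualNumber (Sq n) where
  toFun z := (inl (C z.fst) : DualNumber (Sq n)) + inr (C z.snd)
  map_one' := by
    simp
  map_zero' := by
    simp
  map_add' a b := by
    simp [TrivSqZeroExt.ext_iff]
  map_mul' a b := by
    simp [TrivSqZeroExt.ext_iff]

theorem dC_fst (z : DualNumber ℚ) : (dC n z).fst = C z.fst := by
  change ((inl (C z.fst) : DualNumber (Sq n)) + inr (C z.snd)).fst = _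
  simp

theorem dC_snd (z : DualNumber ℚ) : (dC n z).snd = C z.snd := by
  change ((inl (C z.fst) : DualNumber (Sq n)) + inr (C z.snd)).snd = _
  simp

/-- the first order expansion of a family of polynomials at the point `p` in the direction `v` -/
noncomputable def Psi (n : ℕ) (p v : σ → ℚ) :
    MvPolynomial (Fin n) (MvPolynomial σ ℚ) →+* DualNumber (Sq n) :=
  eval₂Hom ((dC n).comp (aeval (H87.pt p v) : MvPolynomial σ ℚ →ₐ[ℚ] DualNumber ℚ).toRingHom)
    fun i => inl (X i)

theorem Psi_X (p v : σ → ℚ) (i : Fin n) : Psi n p v (X i) = inl (X i) := by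
  unfold Psi
  rw [coe_eval₂Hom, eval₂_X]

theorem Psi_CX (p v : σ → ℚ) (s : σ) :
    Psi n p v (C (X s)) = inl (C (p s)) + inr (C (v s)) := by
  unfold Psi
  rw [coe_eval₂Hom, eval₂_C]
  change dC n (aeval (H87.pt p v) (X s)) = _
  rw [aeval_X]
  unfold H87.pt
  refine TrivSqZeroExt.ext ?_ ?_
  · rw [dC_fst]
    simp
  · rw [dC_snd]
    simp

theorem inl_prod (μ : Fin n →₀ ℕ) :
    (μ.prod fun i m => (inl (X i : Sq n) : DualNumber (Sq n)) ^ m) = inl (monomial μ 1) := by
  have h : (monomial μ (1 : ℚ)) = μ.prod fun i m => (X i : Sq n) ^ m := by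
    rw [monomial_eq, C_1, one_mul]
  rw [h]
  have h2 := map_finsuppProd (inlHom (Sq n) (Sq n)) μ fun i m => (X i : Sq n) ^ m
  refine Eq.trans ?_ h2.symm
  refine Finsupp.prod_congr fun i _ => ?_
  rw [map_pow]
  rfl

theorem Psi_snd (p v : σ → ℚ) (G : MvPolynomial (Fin n) (MvPolynomial σ ℚ)) (μ : Fin n →₀ ℕ) :
    coeff μ (Psi n p v G).snd = (aeval (H87.pt p v) (coeff μ G)).snd := by
  classical
  induction G using MvPolynomial.induction_on' with
  | monomial ν b =>
    unfold Psi
    rw [coe_eval₂Hom, eval₂_monomial, inl_prod, TrivSqZeroExt.snd_mul, TrivSqZeroExt.fst_inl,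
      TrivSqZeroExt.snd_inl, smul_zero, zero_add, op_smul_eq_smul]
    change coeff μ (monomial ν 1 * (dC n (aeval (H87.pt p v) b)).snd) = _
    rw [dC_snd, coeff_monomial, mul_comm, coeff_C_mul, coeff_monomial]
    split_ifs with h
    · rw [mul_one]
    · rw [mul_zero, map_zero, TrivSqZeroExt.snd_zero]
  | add G H hG hH =>
    rw [map_add, TrivSqZeroExt.snd_add, coeff_add, hG, hH, coeff_add, map_add,
      TrivSqZeroExt.snd_add]

theorem Psi_fm {e : ℕ} (p v : σ → ℚ) (f : Ex n e → σ) :
    Psi n p v (fm fun μ => X (f μ)) = inl (fm fun μ => p (f μ)) + inr (fm fun μ => v (f μ)) := by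
  classical
  unfold fm
  rw [map_sum]
  have h : ∀ μ : Ex n e, Psi n p v (monomial μ.1 (X (f μ))) =
      inl (monomial μ.1 (p (f μ))) + inr (monomial μ.1 (v (f μ))) := by
    intro μ
    have h1 : (monomial μ.1 (X (f μ)) : MvPolynomial (Fin n) (MvPolynomial σ ℚ)) =
        C (X (f μ)) * monomial μ.1 1 := by
      rw [C_mul_monomial, mul_one]
    have h2 : Psi n p v (monomial μ.1 1) = inl (monomial μ.1 1) := by
      unfold Psi
      rw [coe_eval₂Hom, eval₂_monomial, map_one, one_mul, inl_prod]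
    rw [h1, map_mul, Psi_CX, h2]
    refine TrivSqZeroExt.ext ?_ ?_
    · simp [C_mul_monomial]
    · simp [C_mul_monomial, mul_comm]
  rw [Finset.sum_congr rfl fun μ _ => h μ, Finset.sum_add_distrib]
  congr 1
  · exact (map_sum (inlHom (Sq n) (Sq n)) _ _).symm
  · exact (map_sum (inrHom (Sq n) (Sq n)) _ _).symm

end

end Pool.Agent.LX.H95
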