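import Pool.Agent.Lib.MP_c7af3c_ag.LX.H95.K23Jac
import Pool.Agent.Lib.MP_c7af3c_ag.LX.H95.Quartic

/-!
# MP_c7af3c_ag: a very general complete intersection of type (2,3) in the projective space of
dimension four contains a rational curve
-/

set_option autoImplicit false
set_option linter.unusedSimpArgs false

namespace Pool.Agent.LX.H95.K23

open MvPolynomial TrivSqZeroExt Pool.Agent.LX.H95

section Curve

variable {S : Type} [CommRing S]

/-- the matrix of the four linear forms -/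
def LM (w : Fin 4 × Fin 7 → S) : Matrix (Fin 4) (Fin 4) S :=
  Matrix.of ![![w (0, 1), w (0, 2), w (0, 3), w (0, 4)],
    ![w (1, 1), w (1, 2), w (1, 3), w (1, 4)],
    ![w (2, 1), w (2, 2), w (2, 3), w (2, 4)],
    ![w (3, 1), w (3, 2), w (3, 3), w (3, 4)]]

/-- the cubic transformation -/
def crem (y : Fin 4 → S) : Fin 4 → S :=
  ![y 1 * y 2 * y 3, y 0 * y 2 * y 3, y 0 * y 1 * y 3, y 0 * y 1 * y 2]

/-- the point of the hyperplane -/
def px (w : Fin 4 × Fin 7 → S) (y : Fin 4 → S) : Fin 4 → S :=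
  (LM w).adjugate.mulVec (crem y)

/-- the point of the surface -/
def sx (w : Fin 4 × Fin 7 → S) (y : Fin 4 → S) : Fin 5 → S :=
  ![px w y 0, px w y 1, px w y 2, px w y 3,
    w (0, 0) * px w y 0 + w (1, 0) * px w y 1 + w (2, 0) * px w y 2 + w (3, 0) * px w y 3]

theorem LM_px (w : Fin 4 × Fin 7 → S) (y : Fin 4 → S) (i : Fin 4) :
    (LM w).mulVec (px w y) i = (LM w).det * crem y i := by
  unfold px
  rw [Matrix.mulVec_mulVec, Matrix.mul_adjugate, Matrix.smul_mulVec, Matrix.one_mulVec]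
  rfl

theorem lf_sx (w : Fin 4 × Fin 7 → S) (y : Fin 4 → S) (i : Fin 4) :
    lf (sx w y) w i = (LM w).det * crem y i := by
  rw [← LM_px]
  simp only [Matrix.mulVec, dotProduct, Fin.sum_univ_four]
  fin_cases i <;> rfl

theorem sx_four (w : Fin 4 × Fin 7 → S) (y : Fin 4 → S) :
    sx w y 4 - (w (0, 0) * sx w y 0 + w (1, 0) * sx w y 1 + w (2, 0) * sx w y 2 +
      w (3, 0) * sx w y 3) = 0 := by
  change (w (0, 0) * px w y 0 + w (1, 0) * px w y 1 + w (2, 0) * px w y 2 + w (3, 0) * px w y 3) -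
    (w (0, 0) * px w y 0 + w (1, 0) * px w y 1 + w (2, 0) * px w y 2 + w (3, 0) * px w y 3) = 0
  ring

/-- the quadric in the coordinates `y` -/
def qy (u : Fin 6 → S) (y : Fin 4 → S) : S :=
  u 0 * (y 2 * y 3) + u 1 * (y 1 * y 3) + u 2 * (y 1 * y 2) + u 3 * (y 0 * y 3) +
    u 4 * (y 0 * y 2) + u 5 * (y 0 * y 1)

theorem qf_crem (u : Fin 6 → S) (y : Fin 4 → S) (D : S) (hq : qy u y = 0) :
    qf u (fun i => D * crem y i) = 0 := by
  have c0 : crem y 0 = y 1 * y 2 * y 3 := rfl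
  have c1 : crem y 1 = y 0 * y 2 * y 3 := rfl
  have c2 : crem y 2 = y 0 * y 1 * y 3 := rfl
  have c3 : crem y 3 = y 0 * y 1 * y 2 := rfl
  unfold qf
  simp only [c0, c1, c2, c3]
  unfold qy at hq
  linear_combination (D ^ 2 * (y 0 * y 1 * y 2 * y 3)) * hq

theorem gf_crem (g : Fin 4 → S) (y : Fin 4 → S) (D : S)
    (hg : g 0 * y 0 + g 1 * y 1 + g 2 * y 2 + g 3 * y 3 = 0) :
    gf g (fun i => D * crem y i) = 0 := by
  have c0 : crem y 0 = y 1 * y 2 * y 3 := rfl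
  have c1 : crem y 1 = y 0 * y 2 * y 3 := rfl
  have c2 : crem y 2 = y 0 * y 1 * y 3 := rfl
  have c3 : crem y 3 = y 0 * y 1 * y 2 := rfl
  unfold gf
  simp only [c0, c1, c2, c3]
  linear_combination (D ^ 3 * (y 0 * y 1 * y 2 * y 3) ^ 2) * hg

theorem Fam1_sx (w : Fin 4 × Fin 7 → S) (u : Fin 6 → S) (y : Fin 4 → S) (m : S)
    (hq : qy u y = 0) : Fam1 (sx w y) w u m = 0 := by
  unfold Fam1
  rw [sx_four, zero_mul, add_zero, funext (lf_sx w y), qf_crem u y _ hq]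

theorem Fam2_sx (w : Fin 4 × Fin 7 → S) (u : Fin 6 → S) (y : Fin 4 → S) (m : S)
    (hq : qy u y = 0) (hg : w (0, 5) * y 0 + w (1, 5) * y 1 + w (2, 5) * y 2 + w (3, 5) * y 3 = 0) :
    Fam2 (sx w y) w u m = 0 := by
  unfold Fam2
  rw [sx_four, zero_mul, add_zero, funext (lf_sx w y), qf_crem u y _ hq,
    gf_crem (fun i => w (i, 5)) y _ hg]
  ring

/-- the plane in the coordinates `y` -/
def pl (w : Fin 4 × Fin 7 → S) (z : Fin 3 → S) : Fin 4 → S :=
  ![w (3, 5) * z 0, w (3, 5) * z 1, w (3, 5) * z 2,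
    -(w (0, 5) * z 0 + w (1, 5) * z 1 + w (2, 5) * z 2)]

theorem pl_eq (w : Fin 4 × Fin 7 → S) (z : Fin 3 → S) :
    w (0, 5) * pl w z 0 + w (1, 5) * pl w z 1 + w (2, 5) * pl w z 2 + w (3, 5) * pl w z 3 = 0 := by
  change w (0, 5) * (w (3, 5) * z 0) + w (1, 5) * (w (3, 5) * z 1) +
    w (2, 5) * (w (3, 5) * z 2) +
    w (3, 5) * (-(w (0, 5) * z 0 + w (1, 5) * z 1 + w (2, 5) * z 2)) = 0
  ring

/-- the coefficients of the conic -/
def wc (w : Fin 4 × Fin 7 → S) (u : Fin 6 → S) (t : Fin 3 × Fin 6) : S :=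
  if t.2 = 4 then
    (![-(w (3, 5) * u 3 * w (0, 5)), -(w (3, 5) * u 1 * w (1, 5)),
      -(w (3, 5) * u 0 * w (2, 5))] : Fin 3 → S) t.1
  else (![-(w (3, 5) * (u 0 * w (1, 5) + u 1 * w (2, 5))) + w (3, 5) ^ 2 * u 2,
      -(w (3, 5) * (u 0 * w (0, 5) + u 3 * w (2, 5))) + w (3, 5) ^ 2 * u 4,
      -(w (3, 5) * (u 1 * w (0, 5) + u 3 * w (1, 5))) + w (3, 5) ^ 2 * u 5] : Fin 3 → S) t.1

theorem wc04 (w : Fin 4 × Fin 7 → S) (u : Fin 6 → S) :
    wc w u (0, 4) = -(w (3, 5) * u 3 * w (0, 5)) := rfl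
theorem wc14 (w : Fin 4 × Fin 7 → S) (u : Fin 6 → S) :
    wc w u (1, 4) = -(w (3, 5) * u 1 * w (1, 5)) := rfl
theorem wc24 (w : Fin 4 × Fin 7 → S) (u : Fin 6 → S) :
    wc w u (2, 4) = -(w (3, 5) * u 0 * w (2, 5)) := rfl
theorem wc05 (w : Fin 4 × Fin 7 → S) (u : Fin 6 → S) :
    wc w u (0, 5) = -(w (3, 5) * (u 0 * w (1, 5) + u 1 * w (2, 5))) + w (3, 5) ^ 2 * u 2 := rfl
theorem wc15 (w : Fin 4 × Fin 7 → S) (u : Fin 6 → S) :
    wc w u (1, 5) = -(w (3, 5) * (u 0 * w (0, 5) + u 3 * w (2, 5))) + w (3, 5) ^ 2 * u 4 := rfl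
theorem wc25 (w : Fin 4 × Fin 7 → S) (u : Fin 6 → S) :
    wc w u (2, 5) = -(w (3, 5) * (u 1 * w (0, 5) + u 3 * w (1, 5))) + w (3, 5) ^ 2 * u 5 := rfl

theorem map_wc {S' : Type} [CommRing S'] (f : S →+* S') (w : Fin 4 × Fin 7 → S) (u : Fin 6 → S)
    (t : Fin 3 × Fin 6) : f (wc w u t) = wc (fun t => f (w t)) (fun t => f (u t)) t := by
  obtain ⟨i, j⟩ := t
  by_cases hj : j = 4
  · subst hj
    fin_cases i
    · change f (wc w u (0, 4)) = wc _ _ (0, 4)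
      simp only [wc04, map_neg, map_mul]
    · change f (wc w u (1, 4)) = wc _ _ (1, 4)
      simp only [wc14, map_neg, map_mul]
    · change f (wc w u (2, 4)) = wc _ _ (2, 4)
      simp only [wc24, map_neg, map_mul]
  · unfold wc
    rw [if_neg hj, if_neg hj]
    fin_cases i
    · change f (-(w (3, 5) * (u 0 * w (1, 5) + u 1 * w (2, 5))) + w (3, 5) ^ 2 * u 2) = _
      simp only [map_add, map_neg, map_mul, map_pow]
      rfl
    · change f (-(w (3, 5) * (u 0 * w (0, 5) + u 3 * w (2, 5))) + w (3, 5) ^ 2 * u 4) = _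
      simp only [map_add, map_neg, map_mul, map_pow]
      rfl
    · change f (-(w (3, 5) * (u 1 * w (0, 5) + u 3 * w (1, 5))) + w (3, 5) ^ 2 * u 5) = _
      simp only [map_add, map_neg, map_mul, map_pow]
      rfl

theorem qy_pl (w : Fin 4 × Fin 7 → S) (u : Fin 6 → S) (z : Fin 3 → S)
    (h : H95.qy (wc w u) z = 0) : qy u (pl w z) = 0 := by
  unfold H95.qy at h
  simp only [wc04, wc14, wc24, wc05, wc15, wc25] at h
  have c0 : pl w z 0 = w (3, 5) * z 0 := rfl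
  have c1 : pl w z 1 = w (3, 5) * z 1 := rfl
  have c2 : pl w z 2 = w (3, 5) * z 2 := rfl
  have c3 : pl w z 3 = -(w (0, 5) * z 0 + w (1, 5) * z 1 + w (2, 5) * z 2) := rfl
  unfold qy
  rw [c0, c1, c2, c3]
  linear_combination h

/-- the curve -/
def cv (w : Fin 4 × Fin 7 → S) (u : Fin 6 → S) (ρ s t : S) : Fin 5 → S :=
  sx w (pl w (yy (wc w u) ρ s t))

/-- the discriminant condition -/
def RR (a b c c1 c0 : S) : S := a * c0 ^ 2 - b * c0 * c1 + c * c1 ^ 2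

theorem map_RR {S' : Type} [CommRing S'] (f : S →+* S') (a b c c1 c0 : S) :
    f (RR a b c c1 c0) = RR (f a) (f b) (f c) (f c1) (f c0) := by
  simp only [RR, map_add, map_sub, map_mul, map_pow]

theorem RR_ne (a b c c1 c0 ρ : S) (hρ : a * ρ ^ 2 + b * ρ + c = 0) (h : RR a b c c1 c0 ≠ 0) :
    c1 * ρ + c0 ≠ 0 := by
  intro h0
  apply h
  unfold RR
  linear_combination (c1 ^ 2) * hρ - (a * (c1 * ρ - c0) + b * c1) * h0

end Curve

/-- the parameters -/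
abbrev S23 : Type := (Fin 4 × Fin 7) ⊕ (Fin 6 ⊕ (Ex 5 1 ⊕ Ex 5 2))

/-- first form of the generic member -/
noncomputable def G1 : MvPolynomial (Fin 5) (MvPolynomial S23 ℚ) :=
  Fam1 (fun i => X i) (fun t => C (X (Sum.inl t))) (fun t => C (X (Sum.inr (Sum.inl t))))
    (fm fun μ => X (Sum.inr (Sum.inr (Sum.inl μ))))

/-- second form of the generic member -/
noncomputable def G2 : MvPolynomial (Fin 5) (MvPolynomial S23 ℚ) :=
  Fam2 (fun i => X i) (fun t => C (X (Sum.inl t))) (fun t => C (X (Sum.inr (Sum.inl t))))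
    (fm fun μ => X (Sum.inr (Sum.inr (Sum.inr μ))))

theorem p2_hom : p2.IsHomogeneous 2 := by
  have h : ∀ i : Fin 5, (X i ^ 2 : Sq 5).IsHomogeneous 2 := by
    intro i
    simpa using (isHomogeneous_X ℚ i).pow 2
  exact (((h 0).add (h 1)).add (h 2)).add (h 3)

/-- the special point -/
noncomputable def bp : S23 → ℚ :=
  Sum.elim w0 (Sum.elim (fun _ => 1) (Sum.elim (fun μ => coeff μ.1 (0 : Sq 5))
    fun μ => coeff μ.1 p2))

/-- the coefficients of the generic member are algebraically independent -/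
theorem indep23 : AlgebraicIndependent ℚ (Sum.elim (fun μ : Ex 5 2 => coeff μ.1 G1)
    fun μ : Ex 5 3 => coeff μ.1 G2) := by
  refine H87.jac _ bp fun τ => ?_
  obtain ⟨v, u, m1, m2, hm1, hm2, h1, h2⟩ := forms_mem (fm fun μ : Ex 5 2 => τ (Sum.inl μ))
    (fm fun μ : Ex 5 3 => τ (Sum.inr μ)) (fm_hom _) (fm_hom _)
  let d : S23 → ℚ := Sum.elim v (Sum.elim u (Sum.elim (fun μ => coeff μ.1 m1)
    fun μ => coeff μ.1 m2))
  have e1 : ∀ t : Fin 4 × Fin 7, Psi 5 bp d (C (X (Sum.inl t))) =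
      inl (C (w0 t)) + inr (C (v t)) := fun t => Psi_CX _ _ _
  have e2 : ∀ t : Fin 6, Psi 5 bp d (C (X (Sum.inr (Sum.inl t)))) =
      inl (C 1) + inr (C (u t)) := fun t => Psi_CX _ _ _
  have e3 : Psi 5 bp d (fm fun μ : Ex 5 1 => X (Sum.inr (Sum.inr (Sum.inl μ)))) =
      inl 0 + inr m1 := by
    have h := Psi_fm bp d (fun μ : Ex 5 1 => (Sum.inr (Sum.inr (Sum.inl μ)) : S23))
    refine h.trans ?_
    change inl (fm fun μ : Ex 5 1 => coeff μ.1 (0 : Sq 5)) + inr (fm fun μ : Ex 5 1 => coeff μ.1 m1)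
      = _
    rw [fm_eq 0 (isHomogeneous_zero _ _ _), fm_eq m1 hm1]
  have e4 : Psi 5 bp d (fm fun μ : Ex 5 2 => X (Sum.inr (Sum.inr (Sum.inr μ)))) =
      inl p2 + inr m2 := by
    have h := Psi_fm bp d (fun μ : Ex 5 2 => (Sum.inr (Sum.inr (Sum.inr μ)) : S23))
    refine h.trans ?_
    change inl (fm fun μ : Ex 5 2 => coeff μ.1 p2) + inr (fm fun μ : Ex 5 2 => coeff μ.1 m2) = _
    rw [fm_eq p2 p2_hom, fm_eq m2 hm2]
  refine ⟨d, fun s => ?_⟩
  rcases s with μ | μ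
  · rw [Sum.elim_inl, ← Psi_snd]
    unfold G1
    rw [map_Fam1]
    simp only [e1, e2, e3, Psi_X]
    rw [snd_Fam1, h1]
    exact coeff_fm (fun μ : Ex 5 2 => τ (Sum.inl μ)) μ
  · rw [Sum.elim_inr, ← Psi_snd]
    unfold G2
    rw [map_Fam2]
    simp only [e1, e2, e4, Psi_X]
    rw [snd_Fam2, h2]
    exact coeff_fm (fun μ : Ex 5 3 => τ (Sum.inr μ)) μ

end Pool.Agent.LX.H95.K23
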