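import Pool.Agent.Lib.MP_c7af3c_ag.LX.H95.Fm

/-!
# MP_c7af3c_ag: complete intersections of type (2,3) in the projective space of dimension four with a
hyperplane section with four double points: the Jacobian
-/

set_option autoImplicit false
set_option linter.unusedSimpArgs false
set_option linter.unnecessarySimpa false

namespace Pool.Agent.LX.H95.K23

open MvPolynomial TrivSqZeroExt Pool.Agent.LX.H95

/-- quadratic form without squares -/
def qf {S : Type} [CommRing S] (u : Fin 6 → S) (l : Fin 4 → S) : S :=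
  u 0 * (l 0 * l 1) + u 1 * (l 0 * l 2) + u 2 * (l 0 * l 3) + u 3 * (l 1 * l 2) +
    u 4 * (l 1 * l 3) + u 5 * (l 2 * l 3)

/-- cubic form which is singular at the vertices -/
def gf {S : Type} [CommRing S] (g : Fin 4 → S) (l : Fin 4 → S) : S :=
  g 0 * (l 1 * l 2 * l 3) + g 1 * (l 0 * l 2 * l 3) + g 2 * (l 0 * l 1 * l 3) +
    g 3 * (l 0 * l 1 * l 2)

/-- the linear forms -/
def lf {S : Type} [CommRing S] (x : Fin 5 → S) (w : Fin 4 × Fin 7 → S) (i : Fin 4) : S :=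
  w (i, 1) * x 0 + w (i, 2) * x 1 + w (i, 3) * x 2 + w (i, 4) * x 3

/-- the family, first form -/
def Fam1 {S : Type} [CommRing S] (x : Fin 5 → S) (w : Fin 4 × Fin 7 → S) (u : Fin 6 → S)
    (m : S) : S :=
  qf u (lf x w) + (x 4 - (w (0, 0) * x 0 + w (1, 0) * x 1 + w (2, 0) * x 2 + w (3, 0) * x 3)) * m

/-- the family, second form -/
def Fam2 {S : Type} [CommRing S] (x : Fin 5 → S) (w : Fin 4 × Fin 7 → S) (u : Fin 6 → S)
    (m : S) : S :=
  gf (fun i => w (i, 5)) (lf x w) +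
    (w (0, 6) * x 0 + w (1, 6) * x 1 + w (2, 6) * x 2 + w (3, 6) * x 3) * qf u (lf x w) +
    (x 4 - (w (0, 0) * x 0 + w (1, 0) * x 1 + w (2, 0) * x 2 + w (3, 0) * x 3)) * m

theorem map_Fam1 {S S' : Type} [CommRing S] [CommRing S'] (f : S →+* S') (x : Fin 5 → S)
    (w : Fin 4 × Fin 7 → S) (u : Fin 6 → S) (m : S) :
    f (Fam1 x w u m) = Fam1 (fun i => f (x i)) (fun t => f (w t)) (fun t => f (u t)) (f m) := by
  simp only [Fam1, qf, lf, map_add, map_mul, map_sub]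

theorem map_Fam2 {S S' : Type} [CommRing S] [CommRing S'] (f : S →+* S') (x : Fin 5 → S)
    (w : Fin 4 × Fin 7 → S) (u : Fin 6 → S) (m : S) :
    f (Fam2 x w u m) = Fam2 (fun i => f (x i)) (fun t => f (w t)) (fun t => f (u t)) (f m) := by
  simp only [Fam2, qf, gf, lf, map_add, map_mul, map_sub]

/-- the parameters of the special point -/
def w0 (t : Fin 4 × Fin 7) : ℚ := if t.2 = 5 ∨ t.2.val = t.1.val + 1 then 1 else 0

/-- the sum of the squares -/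
noncomputable def p2 : Sq 5 := X 0 ^ 2 + X 1 ^ 2 + X 2 ^ 2 + X 3 ^ 2

/-- the derivative, first form -/
noncomputable def dF1 (v : Fin 4 × Fin 7 → ℚ) (u : Fin 6 → ℚ) (m : Sq 5) : Sq 5 :=
  X 4 * m + C (u 0) * (X 0 * X 1) + C (u 1) * (X 0 * X 2) + C (u 2) * (X 0 * X 3) + C (u 3) * (X 1 * X 2) + C (u 4) * (X 1 * X 3) + C (u 5) * (X 2 * X 3) +
    (X 1 + X 2 + X 3) * (C (v (0, 1)) * X 0 + C (v (0, 2)) * X 1 + C (v (0, 3)) * X 2 + C (v (0, 4)) * X 3) +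
    (X 0 + X 2 + X 3) * (C (v (1, 1)) * X 0 + C (v (1, 2)) * X 1 + C (v (1, 3)) * X 2 + C (v (1, 4)) * X 3) +
    (X 0 + X 1 + X 3) * (C (v (2, 1)) * X 0 + C (v (2, 2)) * X 1 + C (v (2, 3)) * X 2 + C (v (2, 4)) * X 3) +
    (X 0 + X 1 + X 2) * (C (v (3, 1)) * X 0 + C (v (3, 2)) * X 1 + C (v (3, 3)) * X 2 + C (v (3, 4)) * X 3)

/-- the derivative, second form -/
noncomputable def dF2 (v : Fin 4 × Fin 7 → ℚ) (m : Sq 5) : Sq 5 :=
  X 4 * m + C (v (0, 5)) * (X 1 * X 2 * X 3) + C (v (1, 5)) * (X 0 * X 2 * X 3) + C (v (2, 5)) * (X 0 * X 1 * X 3) + C (v (3, 5)) * (X 0 * X 1 * X 2) +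
    (X 1 * X 2 + X 1 * X 3 + X 2 * X 3) * (C (v (0, 1)) * X 0 + C (v (0, 2)) * X 1 + C (v (0, 3)) * X 2 + C (v (0, 4)) * X 3) +
    (X 0 * X 2 + X 0 * X 3 + X 2 * X 3) * (C (v (1, 1)) * X 0 + C (v (1, 2)) * X 1 + C (v (1, 3)) * X 2 + C (v (1, 4)) * X 3) +
    (X 0 * X 1 + X 0 * X 3 + X 1 * X 3) * (C (v (2, 1)) * X 0 + C (v (2, 2)) * X 1 + C (v (2, 3)) * X 2 + C (v (2, 4)) * X 3) +
    (X 0 * X 1 + X 0 * X 2 + X 1 * X 2) * (C (v (3, 1)) * X 0 + C (v (3, 2)) * X 1 + C (v (3, 3)) * X 2 + C (v (3, 4)) * X 3) +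
    (C (v (0, 6)) * X 0 + C (v (1, 6)) * X 1 + C (v (2, 6)) * X 2 + C (v (3, 6)) * X 3) * (X 0 * X 1 + X 0 * X 2 + X 0 * X 3 + X 1 * X 2 + X 1 * X 3 + X 2 * X 3) -
    (C (v (0, 0)) * X 0 + C (v (1, 0)) * X 1 + C (v (2, 0)) * X 2 + C (v (3, 0)) * X 3) * (X 0 ^ 2 + X 1 ^ 2 + X 2 ^ 2 + X 3 ^ 2)

theorem snd_Fam1 (v : Fin 4 × Fin 7 → ℚ) (u : Fin 6 → ℚ) (m : Sq 5) :
    (Fam1 (fun i => (inl (X i) : DualNumber (Sq 5))) (fun t => inl (C (w0 t)) + inr (C (v t)))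
      (fun t => inl (C 1) + inr (C (u t))) (inl 0 + inr m)).snd = dF1 v u m := by
  have e00 : w0 (0, 0) = 0 := rfl
  have e01 : w0 (0, 1) = 1 := rfl
  have e02 : w0 (0, 2) = 0 := rfl
  have e03 : w0 (0, 3) = 0 := rfl
  have e04 : w0 (0, 4) = 0 := rfl
  have e05 : w0 (0, 5) = 1 := rfl
  have e06 : w0 (0, 6) = 0 := rfl
  have e10 : w0 (1, 0) = 0 := rfl
  have e11 : w0 (1, 1) = 0 := rfl
  have e12 : w0 (1, 2) = 1 := rfl
  have e13 : w0 (1, 3) = 0 := rfl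
  have e14 : w0 (1, 4) = 0 := rfl
  have e15 : w0 (1, 5) = 1 := rfl
  have e16 : w0 (1, 6) = 0 := rfl
  have e20 : w0 (2, 0) = 0 := rfl
  have e21 : w0 (2, 1) = 0 := rfl
  have e22 : w0 (2, 2) = 0 := rfl
  have e23 : w0 (2, 3) = 1 := rfl
  have e24 : w0 (2, 4) = 0 := rfl
  have e25 : w0 (2, 5) = 1 := rfl
  have e26 : w0 (2, 6) = 0 := rfl
  have e30 : w0 (3, 0) = 0 := rfl
  have e31 : w0 (3, 1) = 0 := rfl
  have e32 : w0 (3, 2) = 0 := rfl
  have e33 : w0 (3, 3) = 0 := rfl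
  have e34 : w0 (3, 4) = 1 := rfl
  have e35 : w0 (3, 5) = 1 := rfl
  have e36 : w0 (3, 6) = 0 := rfl
  simp only [Fam1, qf, gf, lf, dF1, p2, e00, e01, e02, e03, e04, e05, e06, e10, e11, e12, e13, e14, e15, e16, e20, e21, e22, e23, e24, e25, e26, e30, e31, e32, e33, e34, e35, e36, map_zero,
    map_one, pow_two, TrivSqZeroExt.snd_add, TrivSqZeroExt.snd_mul, TrivSqZeroExt.snd_sub,
    TrivSqZeroExt.fst_add, TrivSqZeroExt.fst_mul, TrivSqZeroExt.fst_sub, TrivSqZeroExt.fst_inl,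
    TrivSqZeroExt.snd_inl, TrivSqZeroExt.fst_inr, TrivSqZeroExt.snd_inr, op_smul_eq_smul,
    smul_eq_mul]
  ring

theorem snd_Fam2 (v : Fin 4 × Fin 7 → ℚ) (u : Fin 6 → ℚ) (m : Sq 5) :
    (Fam2 (fun i => (inl (X i) : DualNumber (Sq 5))) (fun t => inl (C (w0 t)) + inr (C (v t)))
      (fun t => inl (C 1) + inr (C (u t))) (inl p2 + inr m)).snd = dF2 v m := by
  have e00 : w0 (0, 0) = 0 := rfl
  have e01 : w0 (0, 1) = 1 := rfl
  have e02 : w0 (0, 2) = 0 := rfl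
  have e03 : w0 (0, 3) = 0 := rfl
  have e04 : w0 (0, 4) = 0 := rfl
  have e05 : w0 (0, 5) = 1 := rfl
  have e06 : w0 (0, 6) = 0 := rfl
  have e10 : w0 (1, 0) = 0 := rfl
  have e11 : w0 (1, 1) = 0 := rfl
  have e12 : w0 (1, 2) = 1 := rfl
  have e13 : w0 (1, 3) = 0 := rfl
  have e14 : w0 (1, 4) = 0 := rfl
  have e15 : w0 (1, 5) = 1 := rfl
  have e16 : w0 (1, 6) = 0 := rfl
  have e20 : w0 (2, 0) = 0 := rfl
  have e21 : w0 (2, 1) = 0 := rfl
  have e22 : w0 (2, 2) = 0 := rfl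
  have e23 : w0 (2, 3) = 1 := rfl
  have e24 : w0 (2, 4) = 0 := rfl
  have e25 : w0 (2, 5) = 1 := rfl
  have e26 : w0 (2, 6) = 0 := rfl
  have e30 : w0 (3, 0) = 0 := rfl
  have e31 : w0 (3, 1) = 0 := rfl
  have e32 : w0 (3, 2) = 0 := rfl
  have e33 : w0 (3, 3) = 0 := rfl
  have e34 : w0 (3, 4) = 1 := rfl
  have e35 : w0 (3, 5) = 1 := rfl
  have e36 : w0 (3, 6) = 0 := rfl
  simp only [Fam2, qf, gf, lf, dF2, p2, e00, e01, e02, e03, e04, e05, e06, e10, e11, e12, e13, e14, e15, e16, e20, e21, e22, e23, e24, e25, e26, e30, e31, e32, e33, e34, e35, e36, map_zero,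
    map_one, pow_two, TrivSqZeroExt.snd_add, TrivSqZeroExt.snd_mul, TrivSqZeroExt.snd_sub,
    TrivSqZeroExt.fst_add, TrivSqZeroExt.fst_mul, TrivSqZeroExt.fst_sub, TrivSqZeroExt.fst_inl,
    TrivSqZeroExt.snd_inl, TrivSqZeroExt.fst_inr, TrivSqZeroExt.snd_inr, op_smul_eq_smul,
    smul_eq_mul]
  ring

/-- the image of the derivative -/
noncomputable def Wd : Submodule ℚ (Sq 5 × Sq 5) where
  carrier := {T | ∃ v u m1 m2, IsHomogeneous m1 1 ∧ IsHomogeneous m2 2 ∧ dF1 v u m1 = T.1 ∧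
    dF2 v m2 = T.2}
  add_mem' := by
    rintro ⟨_, _⟩ ⟨_, _⟩ ⟨v, u, m1, m2, h1, h2, rfl, rfl⟩ ⟨v', u', m1', m2', h1', h2', rfl, rfl⟩
    refine ⟨v + v', u + u', m1 + m1', m2 + m2', h1.add h1', h2.add h2', ?_, ?_⟩
    · simp only [dF1, Pi.add_apply, map_add, Prod.mk_add_mk]
      ring
    · simp only [dF2, Pi.add_apply, map_add, Prod.mk_add_mk]
      ring
  zero_mem' := by
    refine ⟨0, 0, 0, 0, isHomogeneous_zero _ _ _, isHomogeneous_zero _ _ _, ?_, ?_⟩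
    · simp [dF1]
    · simp [dF2]
  smul_mem' := by
    rintro r ⟨_, _⟩ ⟨v, u, m1, m2, h1, h2, rfl, rfl⟩
    refine ⟨r • v, r • u, r • m1, r • m2, ?_, ?_, ?_, ?_⟩
    · rw [smul_eq_C_mul]
      simpa using (isHomogeneous_C (Fin 5) r).mul h1
    · rw [smul_eq_C_mul]
      simpa using (isHomogeneous_C (Fin 5) r).mul h2
    · simp only [dF1, Pi.smul_apply, smul_eq_C_mul, smul_eq_mul, map_mul, Prod.smul_mk]
      ring
    · simp only [dF2, Pi.smul_apply, smul_eq_C_mul, smul_eq_mul, map_mul, Prod.smul_mk]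
      ring

theorem v_mem (t : Fin 4 × Fin 7) : (dF1 (Pi.single t 1) 0 0, dF2 (Pi.single t 1) 0) ∈ Wd :=
  ⟨Pi.single t 1, 0, 0, 0, isHomogeneous_zero _ _ _, isHomogeneous_zero _ _ _, rfl, rfl⟩

theorem u_mem (t : Fin 6) : (dF1 0 (Pi.single t 1) 0, dF2 0 0) ∈ Wd :=
  ⟨0, Pi.single t 1, 0, 0, isHomogeneous_zero _ _ _, isHomogeneous_zero _ _ _, rfl, rfl⟩

theorem m1_mem (m : Sq 5) (hm : m.IsHomogeneous 1) : (X 4 * m, 0) ∈ Wd := by
  refine ⟨0, 0, m, 0, hm, isHomogeneous_zero _ _ _, ?_, ?_⟩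
  · simp [dF1]
  · simp [dF2]

theorem m2_mem (m : Sq 5) (hm : m.IsHomogeneous 2) : (0, X 4 * m) ∈ Wd := by
  refine ⟨0, 0, 0, m, isHomogeneous_zero _ _ _, hm, ?_, ?_⟩
  · simp [dF1]
  · simp [dF2]

theorem third {A B : Sq 5} (h : ((0 : Sq 5), A) ∈ Wd) (e : A = 3 * B) : ((0 : Sq 5), B) ∈ Wd := by
  have h3 : ((0 : Sq 5), B) = (1 / 3 : ℚ) • ((0 : Sq 5), A) := by
    refine Prod.ext ?_ ?_
    · simp
    · change B = (1 / 3 : ℚ) • A
      have h4 : (C (1 / 3) : Sq 5) * 3 = 1 := by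
        have h : (3 : Sq 5) = C 3 := (map_ofNat C 3).symm
        rw [h, ← C_mul, ← C_1]
        norm_num
      rw [smul_eq_C_mul, e, ← mul_assoc, h4, one_mul]
  rw [h3]
  exact Wd.smul_mem _ h

theorem q01 : ((X 0 * X 1 : Sq 5), (0 : Sq 5)) ∈ Wd := by
  have h := u_mem 0
  simpa [dF1, dF2, Pi.single_apply] using h

theorem q02 : ((X 0 * X 2 : Sq 5), (0 : Sq 5)) ∈ Wd := by
  have h := u_mem 1
  simpa [dF1, dF2, Pi.single_apply] using h

theorem q03 : ((X 0 * X 3 : Sq 5), (0 : Sq 5)) ∈ Wd := by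
  have h := u_mem 2
  simpa [dF1, dF2, Pi.single_apply] using h

theorem q12 : ((X 1 * X 2 : Sq 5), (0 : Sq 5)) ∈ Wd := by
  have h := u_mem 3
  simpa [dF1, dF2, Pi.single_apply] using h

theorem q13 : ((X 1 * X 3 : Sq 5), (0 : Sq 5)) ∈ Wd := by
  have h := u_mem 4
  simpa [dF1, dF2, Pi.single_apply] using h

theorem q23 : ((X 2 * X 3 : Sq 5), (0 : Sq 5)) ∈ Wd := by
  have h := u_mem 5
  simpa [dF1, dF2, Pi.single_apply] using h

theorem g0 : ((0 : Sq 5), (X 1 * X 2 * X 3 : Sq 5)) ∈ Wd := by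
  have h := v_mem (0, 5)
  simpa [dF1, dF2, Pi.single_apply] using h

theorem m0 : ((0 : Sq 5), (X 0 * (X 0 * X 1 + X 0 * X 2 + X 0 * X 3 + X 1 * X 2 + X 1 * X 3 + X 2 * X 3) : Sq 5)) ∈ Wd := by
  have h := v_mem (0, 6)
  simpa [dF1, dF2, Pi.single_apply] using h

theorem a0 : ((0 : Sq 5), (-(X 0 * (X 0 ^ 2 + X 1 ^ 2 + X 2 ^ 2 + X 3 ^ 2)) : Sq 5)) ∈ Wd := by
  have h := v_mem (0, 0)
  simpa [dF1, dF2, Pi.single_apply] using h

theorem g1 : ((0 : Sq 5), (X 0 * X 2 * X 3 : Sq 5)) ∈ Wd := by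
  have h := v_mem (1, 5)
  simpa [dF1, dF2, Pi.single_apply] using h

theorem m1 : ((0 : Sq 5), (X 1 * (X 0 * X 1 + X 0 * X 2 + X 0 * X 3 + X 1 * X 2 + X 1 * X 3 + X 2 * X 3) : Sq 5)) ∈ Wd := by
  have h := v_mem (1, 6)
  simpa [dF1, dF2, Pi.single_apply] using h

theorem a1 : ((0 : Sq 5), (-(X 1 * (X 0 ^ 2 + X 1 ^ 2 + X 2 ^ 2 + X 3 ^ 2)) : Sq 5)) ∈ Wd := by
  have h := v_mem (1, 0)
  simpa [dF1, dF2, Pi.single_apply] using h

theorem g2 : ((0 : Sq 5), (X 0 * X 1 * X 3 : Sq 5)) ∈ Wd := by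
  have h := v_mem (2, 5)
  simpa [dF1, dF2, Pi.single_apply] using h

theorem m2 : ((0 : Sq 5), (X 2 * (X 0 * X 1 + X 0 * X 2 + X 0 * X 3 + X 1 * X 2 + X 1 * X 3 + X 2 * X 3) : Sq 5)) ∈ Wd := by
  have h := v_mem (2, 6)
  simpa [dF1, dF2, Pi.single_apply] using h

theorem a2 : ((0 : Sq 5), (-(X 2 * (X 0 ^ 2 + X 1 ^ 2 + X 2 ^ 2 + X 3 ^ 2)) : Sq 5)) ∈ Wd := by
  have h := v_mem (2, 0)
  simpa [dF1, dF2, Pi.single_apply] using h

theorem g3 : ((0 : Sq 5), (X 0 * X 1 * X 2 : Sq 5)) ∈ Wd := by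
  have h := v_mem (3, 5)
  simpa [dF1, dF2, Pi.single_apply] using h

theorem m3 : ((0 : Sq 5), (X 3 * (X 0 * X 1 + X 0 * X 2 + X 0 * X 3 + X 1 * X 2 + X 1 * X 3 + X 2 * X 3) : Sq 5)) ∈ Wd := by
  have h := v_mem (3, 6)
  simpa [dF1, dF2, Pi.single_apply] using h

theorem a3 : ((0 : Sq 5), (-(X 3 * (X 0 ^ 2 + X 1 ^ 2 + X 2 ^ 2 + X 3 ^ 2)) : Sq 5)) ∈ Wd := by
  have h := v_mem (3, 0)
  simpa [dF1, dF2, Pi.single_apply] using h

theorem l01 : (((X 1 + X 2 + X 3) * X 1 : Sq 5), ((X 1 * X 2 + X 1 * X 3 + X 2 * X 3) * X 1 : Sq 5)) ∈ Wd := by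
  have h := v_mem (0, 2)
  simpa [dF1, dF2, Pi.single_apply] using h

theorem l02 : (((X 1 + X 2 + X 3) * X 2 : Sq 5), ((X 1 * X 2 + X 1 * X 3 + X 2 * X 3) * X 2 : Sq 5)) ∈ Wd := by
  have h := v_mem (0, 3)
  simpa [dF1, dF2, Pi.single_apply] using h

theorem l03 : (((X 1 + X 2 + X 3) * X 3 : Sq 5), ((X 1 * X 2 + X 1 * X 3 + X 2 * X 3) * X 3 : Sq 5)) ∈ Wd := by
  have h := v_mem (0, 4)
  simpa [dF1, dF2, Pi.single_apply] using h

theorem l10 : (((X 0 + X 2 + X 3) * X 0 : Sq 5), ((X 0 * X 2 + X 0 * X 3 + X 2 * X 3) * X 0 : Sq 5)) ∈ Wd := by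
  have h := v_mem (1, 1)
  simpa [dF1, dF2, Pi.single_apply] using h

theorem l12 : (((X 0 + X 2 + X 3) * X 2 : Sq 5), ((X 0 * X 2 + X 0 * X 3 + X 2 * X 3) * X 2 : Sq 5)) ∈ Wd := by
  have h := v_mem (1, 3)
  simpa [dF1, dF2, Pi.single_apply] using h

theorem l13 : (((X 0 + X 2 + X 3) * X 3 : Sq 5), ((X 0 * X 2 + X 0 * X 3 + X 2 * X 3) * X 3 : Sq 5)) ∈ Wd := by
  have h := v_mem (1, 4)
  simpa [dF1, dF2, Pi.single_apply] using h

theorem l20 : (((X 0 + X 1 + X 3) * X 0 : Sq 5), ((X 0 * X 1 + X 0 * X 3 + X 1 * X 3) * X 0 : Sq 5)) ∈ Wd := by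
  have h := v_mem (2, 1)
  simpa [dF1, dF2, Pi.single_apply] using h

theorem l21 : (((X 0 + X 1 + X 3) * X 1 : Sq 5), ((X 0 * X 1 + X 0 * X 3 + X 1 * X 3) * X 1 : Sq 5)) ∈ Wd := by
  have h := v_mem (2, 2)
  simpa [dF1, dF2, Pi.single_apply] using h

theorem l23 : (((X 0 + X 1 + X 3) * X 3 : Sq 5), ((X 0 * X 1 + X 0 * X 3 + X 1 * X 3) * X 3 : Sq 5)) ∈ Wd := by
  have h := v_mem (2, 4)
  simpa [dF1, dF2, Pi.single_apply] using h

theorem l30 : (((X 0 + X 1 + X 2) * X 0 : Sq 5), ((X 0 * X 1 + X 0 * X 2 + X 1 * X 2) * X 0 : Sq 5)) ∈ Wd := by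
  have h := v_mem (3, 1)
  simpa [dF1, dF2, Pi.single_apply] using h

theorem l31 : (((X 0 + X 1 + X 2) * X 1 : Sq 5), ((X 0 * X 1 + X 0 * X 2 + X 1 * X 2) * X 1 : Sq 5)) ∈ Wd := by
  have h := v_mem (3, 2)
  simpa [dF1, dF2, Pi.single_apply] using h

theorem l32 : (((X 0 + X 1 + X 2) * X 2 : Sq 5), ((X 0 * X 1 + X 0 * X 2 + X 1 * X 2) * X 2 : Sq 5)) ∈ Wd := by
  have h := v_mem (3, 3)
  simpa [dF1, dF2, Pi.single_apply] using h

theorem A10 : ((X 0 ^ 2 : Sq 5), (X 0 ^ 2 * (X 2 + X 3) : Sq 5)) ∈ Wd := by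
  have h := Wd.sub_mem (Wd.sub_mem (Wd.sub_mem l10 q02) q03) g1
  convert h using 1
  refine Prod.ext ?_ ?_
  · simp only [Prod.fst_sub]
    ring
  · simp only [Prod.snd_sub]
    ring

theorem A20 : ((X 0 ^ 2 : Sq 5), (X 0 ^ 2 * (X 1 + X 3) : Sq 5)) ∈ Wd := by
  have h := Wd.sub_mem (Wd.sub_mem (Wd.sub_mem l20 q01) q03) g2
  convert h using 1
  refine Prod.ext ?_ ?_
  · simp only [Prod.fst_sub]
    ring
  · simp only [Prod.snd_sub]
    ring

theorem A30 : ((X 0 ^ 2 : Sq 5), (X 0 ^ 2 * (X 1 + X 2) : Sq 5)) ∈ Wd := by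
  have h := Wd.sub_mem (Wd.sub_mem (Wd.sub_mem l30 q01) q02) g3
  convert h using 1
  refine Prod.ext ?_ ?_
  · simp only [Prod.fst_sub]
    ring
  · simp only [Prod.snd_sub]
    ring

theorem B0 : ((0 : Sq 5), (X 0 ^ 2 * (X 1 + X 2 + X 3) : Sq 5)) ∈ Wd := by
  have h := Wd.sub_mem (Wd.sub_mem (Wd.sub_mem m0 g3) g2) g1
  convert h using 1
  refine Prod.ext ?_ ?_
  · simp only [Prod.fst_sub]
    ring
  · simp only [Prod.snd_sub]
    ring

theorem sq01 : ((0 : Sq 5), (X 0 ^ 2 * X 1 : Sq 5)) ∈ Wd := by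
  have h := Wd.sub_mem (Wd.sub_mem B0 (Wd.sub_mem A10 A20)) (Wd.sub_mem A10 A30)
  refine third (A := 3 * (X 0 ^ 2 * X 1)) ?_ rfl
  convert h using 1
  refine Prod.ext ?_ ?_
  · simp only [Prod.fst_sub]
    ring
  · simp only [Prod.snd_sub]
    ring

theorem sq02 : ((0 : Sq 5), (X 0 ^ 2 * X 2 : Sq 5)) ∈ Wd := by
  have h := Wd.sub_mem (Wd.sub_mem B0 (Wd.sub_mem A20 A10)) (Wd.sub_mem A20 A30)
  refine third (A := 3 * (X 0 ^ 2 * X 2)) ?_ rfl
  convert h using 1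
  refine Prod.ext ?_ ?_
  · simp only [Prod.fst_sub]
    ring
  · simp only [Prod.snd_sub]
    ring

theorem sq03 : ((0 : Sq 5), (X 0 ^ 2 * X 3 : Sq 5)) ∈ Wd := by
  have h := Wd.sub_mem (Wd.sub_mem B0 (Wd.sub_mem A30 A10)) (Wd.sub_mem A30 A20)
  refine third (A := 3 * (X 0 ^ 2 * X 3)) ?_ rfl
  convert h using 1
  refine Prod.ext ?_ ?_
  · simp only [Prod.fst_sub]
    ring
  · simp only [Prod.snd_sub]
    ring

theorem s0 : ((X 0 ^ 2 : Sq 5), (0 : Sq 5)) ∈ Wd := by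
  have h := Wd.sub_mem (Wd.sub_mem A30 sq01) sq02
  convert h using 1
  refine Prod.ext ?_ ?_
  · simp only [Prod.fst_sub]
    ring
  · simp only [Prod.snd_sub]
    ring

theorem A01 : ((X 1 ^ 2 : Sq 5), (X 1 ^ 2 * (X 2 + X 3) : Sq 5)) ∈ Wd := by
  have h := Wd.sub_mem (Wd.sub_mem (Wd.sub_mem l01 q12) q13) g0
  convert h using 1
  refine Prod.ext ?_ ?_
  · simp only [Prod.fst_sub]
    ring
  · simp only [Prod.snd_sub]
    ring

theorem A21 : ((X 1 ^ 2 : Sq 5), (X 1 ^ 2 * (X 0 + X 3) : Sq 5)) ∈ Wd := by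
  have h := Wd.sub_mem (Wd.sub_mem (Wd.sub_mem l21 q01) q13) g2
  convert h using 1
  refine Prod.ext ?_ ?_
  · simp only [Prod.fst_sub]
    ring
  · simp only [Prod.snd_sub]
    ring

theorem A31 : ((X 1 ^ 2 : Sq 5), (X 1 ^ 2 * (X 0 + X 2) : Sq 5)) ∈ Wd := by
  have h := Wd.sub_mem (Wd.sub_mem (Wd.sub_mem l31 q01) q12) g3
  convert h using 1
  refine Prod.ext ?_ ?_
  · simp only [Prod.fst_sub]
    ring
  · simp only [Prod.snd_sub]
    ring

theorem B1 : ((0 : Sq 5), (X 1 ^ 2 * (X 0 + X 2 + X 3) : Sq 5)) ∈ Wd := by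
  have h := Wd.sub_mem (Wd.sub_mem (Wd.sub_mem m1 g3) g2) g0
  convert h using 1
  refine Prod.ext ?_ ?_
  · simp only [Prod.fst_sub]
    ring
  · simp only [Prod.snd_sub]
    ring

theorem sq10 : ((0 : Sq 5), (X 1 ^ 2 * X 0 : Sq 5)) ∈ Wd := by
  have h := Wd.sub_mem (Wd.sub_mem B1 (Wd.sub_mem A01 A21)) (Wd.sub_mem A01 A31)
  refine third (A := 3 * (X 1 ^ 2 * X 0)) ?_ rfl
  convert h using 1
  refine Prod.ext ?_ ?_
  · simp only [Prod.fst_sub]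
    ring
  · simp only [Prod.snd_sub]
    ring

theorem sq12 : ((0 : Sq 5), (X 1 ^ 2 * X 2 : Sq 5)) ∈ Wd := by
  have h := Wd.sub_mem (Wd.sub_mem B1 (Wd.sub_mem A21 A01)) (Wd.sub_mem A21 A31)
  refine third (A := 3 * (X 1 ^ 2 * X 2)) ?_ rfl
  convert h using 1
  refine Prod.ext ?_ ?_
  · simp only [Prod.fst_sub]
    ring
  · simp only [Prod.snd_sub]
    ring

theorem sq13 : ((0 : Sq 5), (X 1 ^ 2 * X 3 : Sq 5)) ∈ Wd := by
  have h := Wd.sub_mem (Wd.sub_mem B1 (Wd.sub_mem A31 A01)) (Wd.sub_mem A31 A21)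
  refine third (A := 3 * (X 1 ^ 2 * X 3)) ?_ rfl
  convert h using 1
  refine Prod.ext ?_ ?_
  · simp only [Prod.fst_sub]
    ring
  · simp only [Prod.snd_sub]
    ring

theorem s1 : ((X 1 ^ 2 : Sq 5), (0 : Sq 5)) ∈ Wd := by
  have h := Wd.sub_mem (Wd.sub_mem A31 sq10) sq12
  convert h using 1
  refine Prod.ext ?_ ?_
  · simp only [Prod.fst_sub]
    ring
  · simp only [Prod.snd_sub]
    ring

theorem A02 : ((X 2 ^ 2 : Sq 5), (X 2 ^ 2 * (X 1 + X 3) : Sq 5)) ∈ Wd := by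
  have h := Wd.sub_mem (Wd.sub_mem (Wd.sub_mem l02 q12) q23) g0
  convert h using 1
  refine Prod.ext ?_ ?_
  · simp only [Prod.fst_sub]
    ring
  · simp only [Prod.snd_sub]
    ring

theorem A12 : ((X 2 ^ 2 : Sq 5), (X 2 ^ 2 * (X 0 + X 3) : Sq 5)) ∈ Wd := by
  have h := Wd.sub_mem (Wd.sub_mem (Wd.sub_mem l12 q02) q23) g1
  convert h using 1
  refine Prod.ext ?_ ?_
  · simp only [Prod.fst_sub]
    ring
  · simp only [Prod.snd_sub]
    ring

theorem A32 : ((X 2 ^ 2 : Sq 5), (X 2 ^ 2 * (X 0 + X 1) : Sq 5)) ∈ Wd := by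
  have h := Wd.sub_mem (Wd.sub_mem (Wd.sub_mem l32 q02) q12) g3
  convert h using 1
  refine Prod.ext ?_ ?_
  · simp only [Prod.fst_sub]
    ring
  · simp only [Prod.snd_sub]
    ring

theorem B2 : ((0 : Sq 5), (X 2 ^ 2 * (X 0 + X 1 + X 3) : Sq 5)) ∈ Wd := by
  have h := Wd.sub_mem (Wd.sub_mem (Wd.sub_mem m2 g3) g1) g0
  convert h using 1
  refine Prod.ext ?_ ?_
  · simp only [Prod.fst_sub]
    ring
  · simp only [Prod.snd_sub]
    ring

theorem sq20 : ((0 : Sq 5), (X 2 ^ 2 * X 0 : Sq 5)) ∈ Wd := by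
  have h := Wd.sub_mem (Wd.sub_mem B2 (Wd.sub_mem A02 A12)) (Wd.sub_mem A02 A32)
  refine third (A := 3 * (X 2 ^ 2 * X 0)) ?_ rfl
  convert h using 1
  refine Prod.ext ?_ ?_
  · simp only [Prod.fst_sub]
    ring
  · simp only [Prod.snd_sub]
    ring

theorem sq21 : ((0 : Sq 5), (X 2 ^ 2 * X 1 : Sq 5)) ∈ Wd := by
  have h := Wd.sub_mem (Wd.sub_mem B2 (Wd.sub_mem A12 A02)) (Wd.sub_mem A12 A32)
  refine third (A := 3 * (X 2 ^ 2 * X 1)) ?_ rfl
  convert h using 1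
  refine Prod.ext ?_ ?_
  · simp only [Prod.fst_sub]
    ring
  · simp only [Prod.snd_sub]
    ring

theorem sq23 : ((0 : Sq 5), (X 2 ^ 2 * X 3 : Sq 5)) ∈ Wd := by
  have h := Wd.sub_mem (Wd.sub_mem B2 (Wd.sub_mem A32 A02)) (Wd.sub_mem A32 A12)
  refine third (A := 3 * (X 2 ^ 2 * X 3)) ?_ rfl
  convert h using 1
  refine Prod.ext ?_ ?_
  · simp only [Prod.fst_sub]
    ring
  · simp only [Prod.snd_sub]
    ring

theorem s2 : ((X 2 ^ 2 : Sq 5), (0 : Sq 5)) ∈ Wd := by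
  have h := Wd.sub_mem (Wd.sub_mem A32 sq20) sq21
  convert h using 1
  refine Prod.ext ?_ ?_
  · simp only [Prod.fst_sub]
    ring
  · simp only [Prod.snd_sub]
    ring

theorem A03 : ((X 3 ^ 2 : Sq 5), (X 3 ^ 2 * (X 1 + X 2) : Sq 5)) ∈ Wd := by
  have h := Wd.sub_mem (Wd.sub_mem (Wd.sub_mem l03 q13) q23) g0
  convert h using 1
  refine Prod.ext ?_ ?_
  · simp only [Prod.fst_sub]
    ring
  · simp only [Prod.snd_sub]
    ring

theorem A13 : ((X 3 ^ 2 : Sq 5), (X 3 ^ 2 * (X 0 + X 2) : Sq 5)) ∈ Wd := by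
  have h := Wd.sub_mem (Wd.sub_mem (Wd.sub_mem l13 q03) q23) g1
  convert h using 1
  refine Prod.ext ?_ ?_
  · simp only [Prod.fst_sub]
    ring
  · simp only [Prod.snd_sub]
    ring

theorem A23 : ((X 3 ^ 2 : Sq 5), (X 3 ^ 2 * (X 0 + X 1) : Sq 5)) ∈ Wd := by
  have h := Wd.sub_mem (Wd.sub_mem (Wd.sub_mem l23 q03) q13) g2
  convert h using 1
  refine Prod.ext ?_ ?_
  · simp only [Prod.fst_sub]
    ring
  · simp only [Prod.snd_sub]
    ring

theorem B3 : ((0 : Sq 5), (X 3 ^ 2 * (X 0 + X 1 + X 2) : Sq 5)) ∈ Wd := by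
  have h := Wd.sub_mem (Wd.sub_mem (Wd.sub_mem m3 g2) g1) g0
  convert h using 1
  refine Prod.ext ?_ ?_
  · simp only [Prod.fst_sub]
    ring
  · simp only [Prod.snd_sub]
    ring

theorem sq30 : ((0 : Sq 5), (X 3 ^ 2 * X 0 : Sq 5)) ∈ Wd := by
  have h := Wd.sub_mem (Wd.sub_mem B3 (Wd.sub_mem A03 A13)) (Wd.sub_mem A03 A23)
  refine third (A := 3 * (X 3 ^ 2 * X 0)) ?_ rfl
  convert h using 1
  refine Prod.ext ?_ ?_
  · simp only [Prod.fst_sub]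
    ring
  · simp only [Prod.snd_sub]
    ring

theorem sq31 : ((0 : Sq 5), (X 3 ^ 2 * X 1 : Sq 5)) ∈ Wd := by
  have h := Wd.sub_mem (Wd.sub_mem B3 (Wd.sub_mem A13 A03)) (Wd.sub_mem A13 A23)
  refine third (A := 3 * (X 3 ^ 2 * X 1)) ?_ rfl
  convert h using 1
  refine Prod.ext ?_ ?_
  · simp only [Prod.fst_sub]
    ring
  · simp only [Prod.snd_sub]
    ring

theorem sq32 : ((0 : Sq 5), (X 3 ^ 2 * X 2 : Sq 5)) ∈ Wd := by
  have h := Wd.sub_mem (Wd.sub_mem B3 (Wd.sub_mem A23 A03)) (Wd.sub_mem A23 A13)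
  refine third (A := 3 * (X 3 ^ 2 * X 2)) ?_ rfl
  convert h using 1
  refine Prod.ext ?_ ?_
  · simp only [Prod.fst_sub]
    ring
  · simp only [Prod.snd_sub]
    ring

theorem s3 : ((X 3 ^ 2 : Sq 5), (0 : Sq 5)) ∈ Wd := by
  have h := Wd.sub_mem (Wd.sub_mem A23 sq30) sq31
  convert h using 1
  refine Prod.ext ?_ ?_
  · simp only [Prod.fst_sub]
    ring
  · simp only [Prod.snd_sub]
    ring

theorem cu0 : ((0 : Sq 5), (X 0 ^ 3 : Sq 5)) ∈ Wd := by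
  have h := Wd.sub_mem (Wd.sub_mem (Wd.sub_mem (Wd.neg_mem a0) sq10) sq20) sq30
  convert h using 1
  refine Prod.ext ?_ ?_
  · simp only [Prod.fst_sub, Prod.fst_neg]
    ring
  · simp only [Prod.snd_sub, Prod.snd_neg]
    ring

theorem cu1 : ((0 : Sq 5), (X 1 ^ 3 : Sq 5)) ∈ Wd := by
  have h := Wd.sub_mem (Wd.sub_mem (Wd.sub_mem (Wd.neg_mem a1) sq01) sq21) sq31
  convert h using 1
  refine Prod.ext ?_ ?_
  · simp only [Prod.fst_sub, Prod.fst_neg]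
    ring
  · simp only [Prod.snd_sub, Prod.snd_neg]
    ring

theorem cu2 : ((0 : Sq 5), (X 2 ^ 3 : Sq 5)) ∈ Wd := by
  have h := Wd.sub_mem (Wd.sub_mem (Wd.sub_mem (Wd.neg_mem a2) sq02) sq12) sq32
  convert h using 1
  refine Prod.ext ?_ ?_
  · simp only [Prod.fst_sub, Prod.fst_neg]
    ring
  · simp only [Prod.snd_sub, Prod.snd_neg]
    ring

theorem cu3 : ((0 : Sq 5), (X 3 ^ 3 : Sq 5)) ∈ Wd := by
  have h := Wd.sub_mem (Wd.sub_mem (Wd.sub_mem (Wd.neg_mem a3) sq03) sq13) sq23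
  convert h using 1
  refine Prod.ext ?_ ?_
  · simp only [Prod.fst_sub, Prod.fst_neg]
    ring
  · simp only [Prod.snd_sub, Prod.snd_neg]
    ring

theorem P0002 : ((X 0 ^ 0 * X 1 ^ 0 * X 2 ^ 0 * X 3 ^ 2 : Sq 5), (0 : Sq 5)) ∈ Wd := by
  have h := s3
  convert h using 2
  ring

theorem P0011 : ((X 0 ^ 0 * X 1 ^ 0 * X 2 ^ 1 * X 3 ^ 1 : Sq 5), (0 : Sq 5)) ∈ Wd := by
  have h := q23
  convert h using 2
  ring

theorem P0020 : ((X 0 ^ 0 * X 1 ^ 0 * X 2 ^ 2 * X 3 ^ 0 : Sq 5), (0 : Sq 5)) ∈ Wd := by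
  have h := s2
  convert h using 2
  ring

theorem P0101 : ((X 0 ^ 0 * X 1 ^ 1 * X 2 ^ 0 * X 3 ^ 1 : Sq 5), (0 : Sq 5)) ∈ Wd := by
  have h := q13
  convert h using 2
  ring

theorem P0110 : ((X 0 ^ 0 * X 1 ^ 1 * X 2 ^ 1 * X 3 ^ 0 : Sq 5), (0 : Sq 5)) ∈ Wd := by
  have h := q12
  convert h using 2
  ring

theorem P0200 : ((X 0 ^ 0 * X 1 ^ 2 * X 2 ^ 0 * X 3 ^ 0 : Sq 5), (0 : Sq 5)) ∈ Wd := by
  have h := s1
  convert h using 2
  ring

theorem P1001 : ((X 0 ^ 1 * X 1 ^ 0 * X 2 ^ 0 * X 3 ^ 1 : Sq 5), (0 : Sq 5)) ∈ Wd := by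
  have h := q03
  convert h using 2
  ring

theorem P1010 : ((X 0 ^ 1 * X 1 ^ 0 * X 2 ^ 1 * X 3 ^ 0 : Sq 5), (0 : Sq 5)) ∈ Wd := by
  have h := q02
  convert h using 2
  ring

theorem P1100 : ((X 0 ^ 1 * X 1 ^ 1 * X 2 ^ 0 * X 3 ^ 0 : Sq 5), (0 : Sq 5)) ∈ Wd := by
  have h := q01
  convert h using 2
  ring

theorem P2000 : ((X 0 ^ 2 * X 1 ^ 0 * X 2 ^ 0 * X 3 ^ 0 : Sq 5), (0 : Sq 5)) ∈ Wd := by
  have h := s0
  convert h using 2
  ring

theorem P0003 : ((0 : Sq 5), (X 0 ^ 0 * X 1 ^ 0 * X 2 ^ 0 * X 3 ^ 3 : Sq 5)) ∈ Wd := by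
  have h := cu3
  convert h using 2
  ring

theorem P0012 : ((0 : Sq 5), (X 0 ^ 0 * X 1 ^ 0 * X 2 ^ 1 * X 3 ^ 2 : Sq 5)) ∈ Wd := by
  have h := sq32
  convert h using 2
  ring

theorem P0021 : ((0 : Sq 5), (X 0 ^ 0 * X 1 ^ 0 * X 2 ^ 2 * X 3 ^ 1 : Sq 5)) ∈ Wd := by
  have h := sq23
  convert h using 2
  ring

theorem P0030 : ((0 : Sq 5), (X 0 ^ 0 * X 1 ^ 0 * X 2 ^ 3 * X 3 ^ 0 : Sq 5)) ∈ Wd := by
  have h := cu2
  convert h using 2
  ring

theorem P0102 : ((0 : Sq 5), (X 0 ^ 0 * X 1 ^ 1 * X 2 ^ 0 * X 3 ^ 2 : Sq 5)) ∈ Wd := by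
  have h := sq31
  convert h using 2
  ring

theorem P0111 : ((0 : Sq 5), (X 0 ^ 0 * X 1 ^ 1 * X 2 ^ 1 * X 3 ^ 1 : Sq 5)) ∈ Wd := by
  have h := g0
  convert h using 2
  ring

theorem P0120 : ((0 : Sq 5), (X 0 ^ 0 * X 1 ^ 1 * X 2 ^ 2 * X 3 ^ 0 : Sq 5)) ∈ Wd := by
  have h := sq21
  convert h using 2
  ring

theorem P0201 : ((0 : Sq 5), (X 0 ^ 0 * X 1 ^ 2 * X 2 ^ 0 * X 3 ^ 1 : Sq 5)) ∈ Wd := by
  have h := sq13
  convert h using 2
  ring

theorem P0210 : ((0 : Sq 5), (X 0 ^ 0 * X 1 ^ 2 * X 2 ^ 1 * X 3 ^ 0 : Sq 5)) ∈ Wd := by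
  have h := sq12
  convert h using 2
  ring

theorem P0300 : ((0 : Sq 5), (X 0 ^ 0 * X 1 ^ 3 * X 2 ^ 0 * X 3 ^ 0 : Sq 5)) ∈ Wd := by
  have h := cu1
  convert h using 2
  ring

theorem P1002 : ((0 : Sq 5), (X 0 ^ 1 * X 1 ^ 0 * X 2 ^ 0 * X 3 ^ 2 : Sq 5)) ∈ Wd := by
  have h := sq30
  convert h using 2
  ring

theorem P1011 : ((0 : Sq 5), (X 0 ^ 1 * X 1 ^ 0 * X 2 ^ 1 * X 3 ^ 1 : Sq 5)) ∈ Wd := by
  have h := g1
  convert h using 2
  ring

theorem P1020 : ((0 : Sq 5), (X 0 ^ 1 * X 1 ^ 0 * X 2 ^ 2 * X 3 ^ 0 : Sq 5)) ∈ Wd := by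
  have h := sq20
  convert h using 2
  ring

theorem P1101 : ((0 : Sq 5), (X 0 ^ 1 * X 1 ^ 1 * X 2 ^ 0 * X 3 ^ 1 : Sq 5)) ∈ Wd := by
  have h := g2
  convert h using 2
  ring

theorem P1110 : ((0 : Sq 5), (X 0 ^ 1 * X 1 ^ 1 * X 2 ^ 1 * X 3 ^ 0 : Sq 5)) ∈ Wd := by
  have h := g3
  convert h using 2
  ring

theorem P1200 : ((0 : Sq 5), (X 0 ^ 1 * X 1 ^ 2 * X 2 ^ 0 * X 3 ^ 0 : Sq 5)) ∈ Wd := by
  have h := sq10
  convert h using 2
  ring

theorem P2001 : ((0 : Sq 5), (X 0 ^ 2 * X 1 ^ 0 * X 2 ^ 0 * X 3 ^ 1 : Sq 5)) ∈ Wd := by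
  have h := sq03
  convert h using 2
  ring

theorem P2010 : ((0 : Sq 5), (X 0 ^ 2 * X 1 ^ 0 * X 2 ^ 1 * X 3 ^ 0 : Sq 5)) ∈ Wd := by
  have h := sq02
  convert h using 2
  ring

theorem P2100 : ((0 : Sq 5), (X 0 ^ 2 * X 1 ^ 1 * X 2 ^ 0 * X 3 ^ 0 : Sq 5)) ∈ Wd := by
  have h := sq01
  convert h using 2
  ring

theorem P3000 : ((0 : Sq 5), (X 0 ^ 3 * X 1 ^ 0 * X 2 ^ 0 * X 3 ^ 0 : Sq 5)) ∈ Wd := by
  have h := cu0
  convert h using 2
  ring

theorem Pall2 (x y z t : ℕ) (h : x + y + z + t = 2) :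
    ((X 0 ^ x * X 1 ^ y * X 2 ^ z * X 3 ^ t : Sq 5), (0 : Sq 5)) ∈ Wd := by
  have hx : x ≤ 2 := by omega
  interval_cases x
  · have hy : y ≤ 2 := by omega
    interval_cases y
    · have hz : z ≤ 2 := by omega
      interval_cases z
      · obtain rfl : t = 2 := by omega
        exact P0002
      · obtain rfl : t = 1 := by omega
        exact P0011
      · obtain rfl : t = 0 := by omega
        exact P0020
    · have hz : z ≤ 1 := by omega
      interval_cases z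
      · obtain rfl : t = 1 := by omega
        exact P0101
      · obtain rfl : t = 0 := by omega
        exact P0110
    · have hz : z ≤ 0 := by omega
      interval_cases z
      · obtain rfl : t = 0 := by omega
        exact P0200
  · have hy : y ≤ 1 := by omega
    interval_cases y
    · have hz : z ≤ 1 := by omega
      interval_cases z
      · obtain rfl : t = 1 := by omega
        exact P1001
      · obtain rfl : t = 0 := by omega
        exact P1010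
    · have hz : z ≤ 0 := by omega
      interval_cases z
      · obtain rfl : t = 0 := by omega
        exact P1100
  · have hy : y ≤ 0 := by omega
    interval_cases y
    · have hz : z ≤ 0 := by omega
      interval_cases z
      · obtain rfl : t = 0 := by omega
        exact P2000

theorem Pall3 (x y z t : ℕ) (h : x + y + z + t = 3) :
    ((0 : Sq 5), (X 0 ^ x * X 1 ^ y * X 2 ^ z * X 3 ^ t : Sq 5)) ∈ Wd := by
  have hx : x ≤ 3 := by omega
  interval_cases x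
  · have hy : y ≤ 3 := by omega
    interval_cases y
    · have hz : z ≤ 3 := by omega
      interval_cases z
      · obtain rfl : t = 3 := by omega
        exact P0003
      · obtain rfl : t = 2 := by omega
        exact P0012
      · obtain rfl : t = 1 := by omega
        exact P0021
      · obtain rfl : t = 0 := by omega
        exact P0030
    · have hz : z ≤ 2 := by omega
      interval_cases z
      · obtain rfl : t = 2 := by omega
        exact P0102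
      · obtain rfl : t = 1 := by omega
        exact P0111
      · obtain rfl : t = 0 := by omega
        exact P0120
    · have hz : z ≤ 1 := by omega
      interval_cases z
      · obtain rfl : t = 1 := by omega
        exact P0201
      · obtain rfl : t = 0 := by omega
        exact P0210
    · have hz : z ≤ 0 := by omega
      interval_cases z
      · obtain rfl : t = 0 := by omega
        exact P0300
  · have hy : y ≤ 2 := by omega
    interval_cases y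
    · have hz : z ≤ 2 := by omega
      interval_cases z
      · obtain rfl : t = 2 := by omega
        exact P1002
      · obtain rfl : t = 1 := by omega
        exact P1011
      · obtain rfl : t = 0 := by omega
        exact P1020
    · have hz : z ≤ 1 := by omega
      interval_cases z
      · obtain rfl : t = 1 := by omega
        exact P1101
      · obtain rfl : t = 0 := by omega
        exact P1110
    · have hz : z ≤ 0 := by omega
      interval_cases z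
      · obtain rfl : t = 0 := by omega
        exact P1200
  · have hy : y ≤ 1 := by omega
    interval_cases y
    · have hz : z ≤ 1 := by omega
      interval_cases z
      · obtain rfl : t = 1 := by omega
        exact P2001
      · obtain rfl : t = 0 := by omega
        exact P2010
    · have hz : z ≤ 0 := by omega
      interval_cases z
      · obtain rfl : t = 0 := by omega
        exact P2100
  · have hy : y ≤ 0 := by omega
    interval_cases y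
    · have hz : z ≤ 0 := by omega
      interval_cases z
      · obtain rfl : t = 0 := by omega
        exact P3000

theorem mono_mem2 (μ : Fin 5 →₀ ℕ) (h : μ.degree = 2) : ((monomial μ 1 : Sq 5), (0 : Sq 5)) ∈ Wd := by
  have hs : μ 0 + μ 1 + μ 2 + μ 3 + μ 4 = 2 := by
    rw [Finsupp.degree_eq_sum, Fin.sum_univ_five] at h
    exact h
  by_cases h3 : μ 4 = 0
  · have hm : (monomial μ 1 : Sq 5) = X 0 ^ μ 0 * X 1 ^ μ 1 * X 2 ^ μ 2 * X 3 ^ μ 3 := by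
      rw [monomial_eq, C_1, one_mul, Finsupp.prod_fintype _ _ (fun i => pow_zero _),
        Fin.prod_univ_five, h3, pow_zero, mul_one]
    rw [hm]
    rw [h3, add_zero] at hs
    exact Pall2 _ _ _ _ hs
  · have e : (μ - Finsupp.single 4 1) + Finsupp.single 4 1 = μ := by
      apply tsub_add_cancel_of_le
      rw [Finsupp.single_le_iff]
      omega
    have hd : (μ - Finsupp.single 4 1).degree = 1 := by
      have h5 := congrArg Finsupp.degree e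
      rw [map_add, Finsupp.degree_single, h] at h5
      omega
    have hm : (monomial μ 1 : Sq 5) = X 4 * monomial (μ - Finsupp.single 4 1) 1 := by
      rw [mul_comm, X, monomial_mul, e, mul_one]
    rw [hm]
    exact m1_mem _ (isHomogeneous_monomial _ hd)

theorem mono_mem3 (μ : Fin 5 →₀ ℕ) (h : μ.degree = 3) : ((0 : Sq 5), (monomial μ 1 : Sq 5)) ∈ Wd := by
  have hs : μ 0 + μ 1 + μ 2 + μ 3 + μ 4 = 3 := by
    rw [Finsupp.degree_eq_sum, Fin.sum_univ_five] at h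
    exact h
  by_cases h3 : μ 4 = 0
  · have hm : (monomial μ 1 : Sq 5) = X 0 ^ μ 0 * X 1 ^ μ 1 * X 2 ^ μ 2 * X 3 ^ μ 3 := by
      rw [monomial_eq, C_1, one_mul, Finsupp.prod_fintype _ _ (fun i => pow_zero _),
        Fin.prod_univ_five, h3, pow_zero, mul_one]
    rw [hm]
    rw [h3, add_zero] at hs
    exact Pall3 _ _ _ _ hs
  · have e : (μ - Finsupp.single 4 1) + Finsupp.single 4 1 = μ := by
      apply tsub_add_cancel_of_le
      rw [Finsupp.single_le_iff]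
      omega
    have hd : (μ - Finsupp.single 4 1).degree = 2 := by
      have h5 := congrArg Finsupp.degree e
      rw [map_add, Finsupp.degree_single, h] at h5
      omega
    have hm : (monomial μ 1 : Sq 5) = X 4 * monomial (μ - Finsupp.single 4 1) 1 := by
      rw [mul_comm, X, monomial_mul, e, mul_one]
    rw [hm]
    exact m2_mem _ (isHomogeneous_monomial _ hd)

theorem form_mem2 (T : Sq 5) (hT : T.IsHomogeneous 2) : (T, (0 : Sq 5)) ∈ Wd := by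
  have h0 : LinearMap.inl ℚ (Sq 5) (Sq 5) T ∈ Wd := by
    rw [← support_sum_monomial_coeff T, map_sum]
    refine Wd.sum_mem fun μ hμ => ?_
    have h : (monomial μ (coeff μ T) : Sq 5) = coeff μ T • monomial μ 1 := by
      rw [smul_monomial, smul_eq_mul, mul_one]
    rw [h, map_smul]
    refine Wd.smul_mem _ (mono_mem2 μ ?_)
    by_contra hne
    exact mem_support_iff.1 hμ (hT.coeff_eq_zero hne)
  exact h0

theorem form_mem3 (T : Sq 5) (hT : T.IsHomogeneous 3) : ((0 : Sq 5), T) ∈ Wd := by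
  have h0 : LinearMap.inr ℚ (Sq 5) (Sq 5) T ∈ Wd := by
    rw [← support_sum_monomial_coeff T, map_sum]
    refine Wd.sum_mem fun μ hμ => ?_
    have h : (monomial μ (coeff μ T) : Sq 5) = coeff μ T • monomial μ 1 := by
      rw [smul_monomial, smul_eq_mul, mul_one]
    rw [h, map_smul]
    refine Wd.smul_mem _ (mono_mem3 μ ?_)
    by_contra hne
    exact mem_support_iff.1 hμ (hT.coeff_eq_zero hne)
  exact h0

theorem forms_mem (T1 T2 : Sq 5) (h1 : T1.IsHomogeneous 2) (h2 : T2.IsHomogeneous 3) :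
    (T1, T2) ∈ Wd := by
  have h := Wd.add_mem (form_mem2 T1 h1) (form_mem3 T2 h2)
  rwa [Prod.mk_add_mk, add_zero, zero_add] at h

end Pool.Agent.LX.H95.K23
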