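import Pool.Agent.Lib.MP_c7af3c_ag.LX.H95.QuarticJac
import Pool.Agent.Lib.MP_c7af3c_ag.LX.H87.Curve

/-!
# MP_c7af3c_ag: a very general quartic surface contains a rational curve
-/

set_option autoImplicit false

namespace Pool.Agent.LX.H95

open MvPolynomial TrivSqZeroExt

section Curve

variable {S : Type} [CommRing S]

/-- the matrix of the three linear forms -/
def LM (w : Fin 3 × Fin 6 → S) : Matrix (Fin 3) (Fin 3) S :=
  Matrix.of ![![w (0, 1), w (0, 2), w (0, 3)], ![w (1, 1), w (1, 2), w (1, 3)],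
    ![w (2, 1), w (2, 2), w (2, 3)]]

/-- the conic -/
def qy (w : Fin 3 × Fin 6 → S) (y : Fin 3 → S) : S :=
  w (0, 4) * y 0 ^ 2 + w (1, 4) * y 1 ^ 2 + w (2, 4) * y 2 ^ 2 + w (0, 5) * (y 1 * y 2) +
    w (1, 5) * (y 0 * y 2) + w (2, 5) * (y 0 * y 1)

/-- the quadratic transformation -/
def crem (y : Fin 3 → S) : Fin 3 → S := ![y 1 * y 2, y 0 * y 2, y 0 * y 1]

/-- the point of the plane -/
def px (w : Fin 3 × Fin 6 → S) (y : Fin 3 → S) : Fin 3 → S :=
  (LM w).adjugate.mulVec (crem y)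

/-- the point of the surface -/
def sx (w : Fin 3 × Fin 6 → S) (y : Fin 3 → S) : Fin 4 → S :=
  ![px w y 0, px w y 1, px w y 2,
    w (0, 0) * px w y 0 + w (1, 0) * px w y 1 + w (2, 0) * px w y 2]

theorem LM_px (w : Fin 3 × Fin 6 → S) (y : Fin 3 → S) (i : Fin 3) :
    (LM w).mulVec (px w y) i = (LM w).det * crem y i := by
  unfold px
  rw [Matrix.mulVec_mulVec, Matrix.mul_adjugate, Matrix.smul_mulVec, Matrix.one_mulVec]
  rfl

theorem Fam_sx (w : Fin 3 × Fin 6 → S) (y : Fin 3 → S) (hy : qy w y = 0) (g : S) :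
    Fam (sx w y) w g = 0 := by
  have h0 := LM_px w y 0
  have h1 := LM_px w y 1
  have h2 := LM_px w y 2
  simp only [Matrix.mulVec, dotProduct, Fin.sum_univ_three, LM, Matrix.of_apply] at h0 h1 h2
  change w (0, 1) * px w y 0 + w (0, 2) * px w y 1 + w (0, 3) * px w y 2 =
    (LM w).det * (y 1 * y 2) at h0
  change w (1, 1) * px w y 0 + w (1, 2) * px w y 1 + w (1, 3) * px w y 2 =
    (LM w).det * (y 0 * y 2) at h1
  change w (2, 1) * px w y 0 + w (2, 2) * px w y 1 + w (2, 3) * px w y 2 =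
    (LM w).det * (y 0 * y 1) at h2
  have e : ∀ i : Fin 3, (fun i => w (i, 1) * sx w y 0 + w (i, 2) * sx w y 1 + w (i, 3) * sx w y 2) i
      = (LM w).det * crem y i := by
    intro i
    fin_cases i
    · exact h0
    · exact h1
    · exact h2
  unfold Fam
  rw [funext e]
  have h3 : sx w y 3 - (w (0, 0) * sx w y 0 + w (1, 0) * sx w y 1 + w (2, 0) * sx w y 2) = 0 := by
    change (w (0, 0) * px w y 0 + w (1, 0) * px w y 1 + w (2, 0) * px w y 2) -
      (w (0, 0) * px w y 0 + w (1, 0) * px w y 1 + w (2, 0) * px w y 2) = 0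
    ring
  rw [h3, zero_mul, zero_add]
  unfold qf
  have c0 : crem y 0 = y 1 * y 2 := rfl
  have c1 : crem y 1 = y 0 * y 2 := rfl
  have c2 : crem y 2 = y 0 * y 1 := rfl
  simp only [c0, c1, c2]
  unfold qy at hy
  linear_combination ((LM w).det ^ 4 * (y 0 * y 1 * y 2) ^ 2) * hy

/-- parametrisation of the conic by lines through the point `(ρ, 1, 0)` -/
def yy (w : Fin 3 × Fin 6 → S) (ρ s t : S) : Fin 3 → S :=
  let Q := w (0, 4) * s ^ 2 + w (2, 4) * t ^ 2 + w (1, 5) * (s * t)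
  let β := (2 * w (0, 4) * ρ + w (2, 5)) * s + (w (1, 5) * ρ + w (0, 5)) * t
  ![β * s - Q * ρ, -Q, β * t]

theorem qy_yy (w : Fin 3 × Fin 6 → S) (ρ s t : S)
    (hρ : w (0, 4) * ρ ^ 2 + w (2, 5) * ρ + w (1, 4) = 0) : qy w (yy w ρ s t) = 0 := by
  have y0 : yy w ρ s t 0 = ((2 * w (0, 4) * ρ + w (2, 5)) * s + (w (1, 5) * ρ + w (0, 5)) * t) * s -
    (w (0, 4) * s ^ 2 + w (2, 4) * t ^ 2 + w (1, 5) * (s * t)) * ρ := rfl
  have y1 : yy w ρ s t 1 = -(w (0, 4) * s ^ 2 + w (2, 4) * t ^ 2 + w (1, 5) * (s * t)) := rfl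
  have y2 : yy w ρ s t 2 =
    ((2 * w (0, 4) * ρ + w (2, 5)) * s + (w (1, 5) * ρ + w (0, 5)) * t) * t := rfl
  unfold qy
  rw [y0, y1, y2]
  linear_combination
    ((w (0, 4) * s ^ 2 + w (2, 4) * t ^ 2 + w (1, 5) * (s * t)) ^ 2) * hρ

end Curve

/-- the parameters -/
abbrev S4 : Type := (Fin 3 × Fin 6) ⊕ Ex 4 3

/-- the generic quartic of the family -/
noncomputable def G4 : MvPolynomial (Fin 4) (MvPolynomial S4 ℚ) :=
  Fam (fun i => X i) (fun t => C (X (Sum.inl t))) (fm fun μ => X (Sum.inr μ))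

theorem c0_hom : c0.IsHomogeneous 3 := by
  have h : ∀ i : Fin 4, (X i ^ 3 : Sq 4).IsHomogeneous 3 := by
    intro i
    simpa using (isHomogeneous_X ℚ i).pow 3
  exact ((h 0).add (h 1)).add (h 2)

/-- the coefficients of the generic quartic are algebraically independent -/
theorem indep4 : AlgebraicIndependent ℚ (fun μ : Ex 4 4 => coeff μ.1 G4) := by
  refine H87.jac _ (Sum.elim w0 fun μ => coeff μ.1 c0) fun τ => ?_
  obtain ⟨v, g1, hg1, h⟩ := form_mem (fm τ) (fm_hom τ)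
  refine ⟨Sum.elim v fun μ => coeff μ.1 g1, fun μ => ?_⟩
  rw [← Psi_snd]
  unfold G4
  rw [map_Fam]
  have h1 : ∀ t : Fin 3 × Fin 6, Psi 4 (Sum.elim w0 fun μ : Ex 4 3 => coeff μ.1 c0)
      (Sum.elim v fun μ : Ex 4 3 => coeff μ.1 g1) (C (X (Sum.inl t))) =
      inl (C (w0 t)) + inr (C (v t)) := fun t => Psi_CX _ _ _
  have h2 := Psi_fm (Sum.elim w0 fun μ : Ex 4 3 => coeff μ.1 c0)
    (Sum.elim v fun μ : Ex 4 3 => coeff μ.1 g1) (fun μ : Ex 4 3 => (Sum.inr μ : S4))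
  simp only [h1, h2, Psi_X, Sum.elim_inr]
  rw [fm_eq c0 c0_hom, fm_eq g1 hg1, snd_Fam, h, coeff_fm]

/-- the polynomial which must not vanish -/
noncomputable def h4 : MvPolynomial S4 ℚ :=
  (LM fun t => (X (Sum.inl t) : MvPolynomial S4 ℚ)).det * X (Sum.inl (0, 4)) *
    X (Sum.inl (1, 4)) * X (Sum.inl (2, 4)) *
    (X (Sum.inl (0, 4)) * X (Sum.inl (0, 5)) ^ 2 -
      X (Sum.inl (2, 5)) * X (Sum.inl (0, 5)) * X (Sum.inl (1, 5)) +
      X (Sum.inl (1, 4)) * X (Sum.inl (1, 5)) ^ 2)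

theorem map_LM {S S' : Type} [CommRing S] [CommRing S'] (f : S →+* S') (w : Fin 3 × Fin 6 → S) :
    f.mapMatrix (LM w) = LM fun t => f (w t) := by
  ext i j
  fin_cases i <;> fin_cases j <;> rfl

theorem map_h4 {S : Type} [CommRing S] (f : MvPolynomial S4 ℚ →+* S) :
    f h4 = (LM fun t => f (X (Sum.inl t))).det * f (X (Sum.inl (0, 4))) *
      f (X (Sum.inl (1, 4))) * f (X (Sum.inl (2, 4))) *
      (f (X (Sum.inl (0, 4))) * f (X (Sum.inl (0, 5))) ^ 2 -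
        f (X (Sum.inl (2, 5))) * f (X (Sum.inl (0, 5))) * f (X (Sum.inl (1, 5))) +
        f (X (Sum.inl (1, 4))) * f (X (Sum.inl (1, 5))) ^ 2) := by
  unfold h4
  rw [map_mul, map_mul, map_mul, map_mul, RingHom.map_det, map_LM]
  simp only [map_add, map_sub, map_mul, map_pow]

theorem h4_ne : h4 ≠ 0 := by
  intro h
  have h1 := map_h4 (eval (Sum.elim (fun t : Fin 3 × Fin 6 =>
    if t.2 = 4 ∨ t.2.val = t.1.val + 1 ∨ t = (0, 5) then (1 : ℚ) else 0) fun _ : Ex 4 3 => 0))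
  rw [h, map_zero] at h1
  simp only [eval_X, Sum.elim_inl, LM, Matrix.det_fin_three] at h1
  simp at h1

theorem map_G4 {S : Type} [CommRing S] (f : MvPolynomial S4 ℚ →+* S) :
    map f G4 = Fam (fun i => X i) (fun t => C (f (X (Sum.inl t))))
      (fm fun μ : Ex 4 3 => f (X (Sum.inr μ))) := by
  unfold G4
  rw [map_Fam, map_fm]
  simp only [map_X, map_C]

end Pool.Agent.LX.H95
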