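import Pool.Agent.Lib.MP_c7af3c_ag.LX.H95.Fm

/-!
# MP_c7af3c_ag: quartic surfaces with a plane section with three double points: the Jacobian
-/

set_option autoImplicit false

namespace Pool.Agent.LX.H95

open MvPolynomial TrivSqZeroExt

/-- a plane quartic which is singular at the vertices of the triangle `l` -/
def qf {S : Type} [CommRing S] (l a b : Fin 3 → S) : S :=
  a 0 * (l 1 * l 2) ^ 2 + a 1 * (l 0 * l 2) ^ 2 + a 2 * (l 0 * l 1) ^ 2 +
    b 0 * (l 0 * l 1 * (l 0 * l 2)) + b 1 * (l 0 * l 1 * (l 1 * l 2)) +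
    b 2 * (l 0 * l 2 * (l 1 * l 2))

/-- the family of quartics -/
def Fam {S : Type} [CommRing S] (x : Fin 4 → S) (w : Fin 3 × Fin 6 → S) (g : S) : S :=
  (x 3 - (w (0, 0) * x 0 + w (1, 0) * x 1 + w (2, 0) * x 2)) * g +
    qf (fun i => w (i, 1) * x 0 + w (i, 2) * x 1 + w (i, 3) * x 2) (fun i => w (i, 4))
      (fun i => w (i, 5))

theorem map_Fam {S S' : Type} [CommRing S] [CommRing S'] (f : S →+* S') (x : Fin 4 → S)
    (w : Fin 3 × Fin 6 → S) (g : S) :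
    f (Fam x w g) = Fam (fun i => f (x i)) (fun t => f (w t)) (f g) := by
  simp only [Fam, qf, map_add, map_mul, map_sub, map_pow]

/-- the parameters of the special quartic -/
def w0 (t : Fin 3 × Fin 6) : ℚ := if t.2 = 4 ∨ t.2.val = t.1.val + 1 then 1 else 0

/-- the derivative of the family -/
noncomputable def dF (v : Fin 3 × Fin 6 → ℚ) (g0 g1 : Sq 4) : Sq 4 :=
  X 3 * g1 - (C (v (0, 0)) * X 0 + C (v (1, 0)) * X 1 + C (v (2, 0)) * X 2) * g0 +
    2 * X 0 * (X 1 ^ 2 + X 2 ^ 2) * (C (v (0, 1)) * X 0 + C (v (0, 2)) * X 1 + C (v (0, 3)) * X 2) +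
    2 * X 1 * (X 0 ^ 2 + X 2 ^ 2) * (C (v (1, 1)) * X 0 + C (v (1, 2)) * X 1 + C (v (1, 3)) * X 2) +
    2 * X 2 * (X 0 ^ 2 + X 1 ^ 2) * (C (v (2, 1)) * X 0 + C (v (2, 2)) * X 1 + C (v (2, 3)) * X 2) +
    C (v (0, 4)) * (X 1 * X 2) ^ 2 + C (v (1, 4)) * (X 0 * X 2) ^ 2 +
    C (v (2, 4)) * (X 0 * X 1) ^ 2 + C (v (0, 5)) * (X 0 ^ 2 * X 1 * X 2) +
    C (v (1, 5)) * (X 0 * X 1 ^ 2 * X 2) + C (v (2, 5)) * (X 0 * X 1 * X 2 ^ 2)

theorem snd_Fam (v : Fin 3 × Fin 6 → ℚ) (g0 g1 : Sq 4) :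
    (Fam (fun i => (inl (X i) : DualNumber (Sq 4))) (fun t => inl (C (w0 t)) + inr (C (v t)))
      (inl g0 + inr g1)).snd = dF v g0 g1 := by
  have h0 : ∀ i : Fin 3, w0 (i, 0) = 0 := by intro i; fin_cases i <;> rfl
  have h4 : ∀ i : Fin 3, w0 (i, 4) = 1 := by intro i; fin_cases i <;> rfl
  have h5 : ∀ i : Fin 3, w0 (i, 5) = 0 := by intro i; fin_cases i <;> rfl
  have e01 : w0 (0, 1) = 1 := rfl
  have e02 : w0 (0, 2) = 0 := rfl
  have e03 : w0 (0, 3) = 0 := rfl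
  have e11 : w0 (1, 1) = 0 := rfl
  have e12 : w0 (1, 2) = 1 := rfl
  have e13 : w0 (1, 3) = 0 := rfl
  have e21 : w0 (2, 1) = 0 := rfl
  have e22 : w0 (2, 2) = 0 := rfl
  have e23 : w0 (2, 3) = 1 := rfl
  simp only [Fam, qf, dF, h0, h4, h5, e01, e02, e03, e11, e12, e13, e21, e22, e23, map_zero,
    map_one, pow_two, TrivSqZeroExt.snd_add, TrivSqZeroExt.snd_mul, TrivSqZeroExt.snd_sub,
    TrivSqZeroExt.fst_add, TrivSqZeroExt.fst_mul, TrivSqZeroExt.fst_sub, TrivSqZeroExt.fst_inl,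
    TrivSqZeroExt.snd_inl, TrivSqZeroExt.fst_inr, TrivSqZeroExt.snd_inr, op_smul_eq_smul,
    smul_eq_mul]
  ring

/-- the special cubic -/
noncomputable def c0 : Sq 4 := X 0 ^ 3 + X 1 ^ 3 + X 2 ^ 3

/-- the image of the derivative -/
noncomputable def Wd : Submodule ℚ (Sq 4) where
  carrier := {T | ∃ v g1, IsHomogeneous g1 3 ∧ dF v c0 g1 = T}
  add_mem' := by
    rintro _ _ ⟨v, g, hg, rfl⟩ ⟨v', g', hg', rfl⟩
    refine ⟨v + v', g + g', hg.add hg', ?_⟩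
    simp only [dF, Pi.add_apply, map_add]
    ring
  zero_mem' := by
    refine ⟨0, 0, isHomogeneous_zero _ _ _, ?_⟩
    simp [dF]
  smul_mem' := by
    rintro r _ ⟨v, g, hg, rfl⟩
    refine ⟨r • v, r • g, ?_, ?_⟩
    · rw [smul_eq_C_mul]
      simpa using (isHomogeneous_C (Fin 4) r).mul hg
    · simp only [dF, Pi.smul_apply, smul_eq_C_mul, smul_eq_mul, map_mul]
      ring

theorem single_mem (t : Fin 3 × Fin 6) : dF (Pi.single t 1) c0 0 ∈ Wd :=
  ⟨Pi.single t 1, 0, isHomogeneous_zero _ _ _, rfl⟩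

theorem mem1 : ((X 1 * X 2) ^ 2 : Sq 4) ∈ Wd := by
  have h := single_mem (0, 4)
  simpa [dF, Pi.single_apply] using h

theorem mem2 : ((X 0 * X 2) ^ 2 : Sq 4) ∈ Wd := by
  have h := single_mem (1, 4)
  simpa [dF, Pi.single_apply] using h

theorem mem3 : ((X 0 * X 1) ^ 2 : Sq 4) ∈ Wd := by
  have h := single_mem (2, 4)
  simpa [dF, Pi.single_apply] using h

theorem mem4 : (X 0 ^ 2 * X 1 * X 2 : Sq 4) ∈ Wd := by
  have h := single_mem (0, 5)
  simpa [dF, Pi.single_apply] using h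

theorem mem5 : (X 0 * X 1 ^ 2 * X 2 : Sq 4) ∈ Wd := by
  have h := single_mem (1, 5)
  simpa [dF, Pi.single_apply] using h

theorem mem6 : (X 0 * X 1 * X 2 ^ 2 : Sq 4) ∈ Wd := by
  have h := single_mem (2, 5)
  simpa [dF, Pi.single_apply] using h

theorem half_two : (C (1 / 2) : Sq 4) * 2 = 1 := by
  have h : (2 : Sq 4) = C 2 := (map_ofNat C 2).symm
  rw [h, ← C_mul, ← C_1]
  norm_num

theorem half_mem {A B D : Sq 4} (h1 : 2 * A ∈ Wd) (h2 : B ∈ Wd) (h : A = D + B) : D ∈ Wd := by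
  have h3 : D = (1 / 2 : ℚ) • (2 * A) - B := by
    rw [smul_eq_C_mul, ← mul_assoc, half_two, one_mul, h]
    ring
  rw [h3]
  exact Wd.sub_mem (Wd.smul_mem _ h1) h2

theorem cu01 : (X 0 * X 1 ^ 3 : Sq 4) ∈ Wd := by
  have h : (2 * (X 0 * (X 1 ^ 2 + X 2 ^ 2) * X 1) : Sq 4) ∈ Wd := by
    have h := single_mem (0, 2)
    have h2 : dF (Pi.single (0, 2) 1) c0 0 = 2 * (X 0 * (X 1 ^ 2 + X 2 ^ 2) * X 1) := by
      simp [dF]
      try ring
    rwa [h2] at h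
  refine half_mem h mem6 ?_
  ring

theorem cu10 : (X 1 * X 0 ^ 3 : Sq 4) ∈ Wd := by
  have h : (2 * (X 1 * (X 0 ^ 2 + X 2 ^ 2) * X 0) : Sq 4) ∈ Wd := by
    have h := single_mem (1, 1)
    have h2 : dF (Pi.single (1, 1) 1) c0 0 = 2 * (X 1 * (X 0 ^ 2 + X 2 ^ 2) * X 0) := by
      simp [dF]
      try ring
    rwa [h2] at h
  refine half_mem h mem6 ?_
  ring

theorem cu02 : (X 0 * X 2 ^ 3 : Sq 4) ∈ Wd := by
  have h : (2 * (X 0 * (X 2 ^ 2 + X 1 ^ 2) * X 2) : Sq 4) ∈ Wd := by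
    have h := single_mem (0, 3)
    have h2 : dF (Pi.single (0, 3) 1) c0 0 = 2 * (X 0 * (X 2 ^ 2 + X 1 ^ 2) * X 2) := by
      simp [dF]
      try ring
    rwa [h2] at h
  refine half_mem h mem5 ?_
  ring

theorem cu20 : (X 2 * X 0 ^ 3 : Sq 4) ∈ Wd := by
  have h : (2 * (X 2 * (X 0 ^ 2 + X 1 ^ 2) * X 0) : Sq 4) ∈ Wd := by
    have h := single_mem (2, 1)
    have h2 : dF (Pi.single (2, 1) 1) c0 0 = 2 * (X 2 * (X 0 ^ 2 + X 1 ^ 2) * X 0) := by
      simp [dF]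
      try ring
    rwa [h2] at h
  refine half_mem h mem5 ?_
  ring

theorem cu12 : (X 1 * X 2 ^ 3 : Sq 4) ∈ Wd := by
  have h : (2 * (X 1 * (X 2 ^ 2 + X 0 ^ 2) * X 2) : Sq 4) ∈ Wd := by
    have h := single_mem (1, 3)
    have h2 : dF (Pi.single (1, 3) 1) c0 0 = 2 * (X 1 * (X 2 ^ 2 + X 0 ^ 2) * X 2) := by
      simp [dF]
      try ring
    rwa [h2] at h
  refine half_mem h mem4 ?_
  ring

theorem cu21 : (X 2 * X 1 ^ 3 : Sq 4) ∈ Wd := by
  have h : (2 * (X 2 * (X 1 ^ 2 + X 0 ^ 2) * X 1) : Sq 4) ∈ Wd := by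
    have h := single_mem (2, 2)
    have h2 : dF (Pi.single (2, 2) 1) c0 0 = 2 * (X 2 * (X 1 ^ 2 + X 0 ^ 2) * X 1) := by
      simp [dF]
      try ring
    rwa [h2] at h
  refine half_mem h mem4 ?_
  ring

theorem qu0 : (X 0 ^ 4 : Sq 4) ∈ Wd := by
  have h := Wd.neg_mem (single_mem (0, 0))
  have h2 : -dF (Pi.single (0, 0) 1) c0 0 = X 0 ^ 4 + X 0 * X 1 ^ 3 + X 0 * X 2 ^ 3 := by
    simp [dF, c0]
    try ring
  rw [h2] at h
  have h3 := Wd.sub_mem (Wd.sub_mem h cu02) cu01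
  rwa [add_sub_cancel_right, add_sub_cancel_right] at h3

theorem qu1 : (X 1 ^ 4 : Sq 4) ∈ Wd := by
  have h := Wd.neg_mem (single_mem (1, 0))
  have h2 : -dF (Pi.single (1, 0) 1) c0 0 = X 1 ^ 4 + X 1 * X 0 ^ 3 + X 1 * X 2 ^ 3 := by
    simp [dF, c0]
    try ring
  rw [h2] at h
  have h3 := Wd.sub_mem (Wd.sub_mem h cu12) cu10
  rwa [add_sub_cancel_right, add_sub_cancel_right] at h3

theorem qu2 : (X 2 ^ 4 : Sq 4) ∈ Wd := by
  have h := Wd.neg_mem (single_mem (2, 0))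
  have h2 : -dF (Pi.single (2, 0) 1) c0 0 = X 2 ^ 4 + X 2 * X 0 ^ 3 + X 2 * X 1 ^ 3 := by
    simp [dF, c0]
    try ring
  rw [h2] at h
  have h3 := Wd.sub_mem (Wd.sub_mem h cu21) cu20
  rwa [add_sub_cancel_right, add_sub_cancel_right] at h3

theorem lin_mem (g : Sq 4) (hg : g.IsHomogeneous 3) : X 3 * g ∈ Wd := by
  refine ⟨0, g, hg, ?_⟩
  simp [dF]

theorem P004 : (X 0 ^ 0 * X 1 ^ 0 * X 2 ^ 4 : Sq 4) ∈ Wd := by
  have h := qu2
  convert h using 1
  ring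

theorem P013 : (X 0 ^ 0 * X 1 ^ 1 * X 2 ^ 3 : Sq 4) ∈ Wd := by
  have h := cu12
  convert h using 1
  ring

theorem P022 : (X 0 ^ 0 * X 1 ^ 2 * X 2 ^ 2 : Sq 4) ∈ Wd := by
  have h := mem1
  convert h using 1
  ring

theorem P031 : (X 0 ^ 0 * X 1 ^ 3 * X 2 ^ 1 : Sq 4) ∈ Wd := by
  have h := cu21
  convert h using 1
  ring

theorem P040 : (X 0 ^ 0 * X 1 ^ 4 * X 2 ^ 0 : Sq 4) ∈ Wd := by
  have h := qu1
  convert h using 1
  ring

theorem P103 : (X 0 ^ 1 * X 1 ^ 0 * X 2 ^ 3 : Sq 4) ∈ Wd := by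
  have h := cu02
  convert h using 1
  ring

theorem P112 : (X 0 ^ 1 * X 1 ^ 1 * X 2 ^ 2 : Sq 4) ∈ Wd := by
  have h := mem6
  convert h using 1
  ring

theorem P121 : (X 0 ^ 1 * X 1 ^ 2 * X 2 ^ 1 : Sq 4) ∈ Wd := by
  have h := mem5
  convert h using 1
  ring

theorem P130 : (X 0 ^ 1 * X 1 ^ 3 * X 2 ^ 0 : Sq 4) ∈ Wd := by
  have h := cu01
  convert h using 1
  ring

theorem P202 : (X 0 ^ 2 * X 1 ^ 0 * X 2 ^ 2 : Sq 4) ∈ Wd := by
  have h := mem2
  convert h using 1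
  ring

theorem P211 : (X 0 ^ 2 * X 1 ^ 1 * X 2 ^ 1 : Sq 4) ∈ Wd := by
  have h := mem4
  convert h using 1
  ring

theorem P220 : (X 0 ^ 2 * X 1 ^ 2 * X 2 ^ 0 : Sq 4) ∈ Wd := by
  have h := mem3
  convert h using 1
  ring

theorem P301 : (X 0 ^ 3 * X 1 ^ 0 * X 2 ^ 1 : Sq 4) ∈ Wd := by
  have h := cu20
  convert h using 1
  ring

theorem P310 : (X 0 ^ 3 * X 1 ^ 1 * X 2 ^ 0 : Sq 4) ∈ Wd := by
  have h := cu10
  convert h using 1
  ring

theorem P400 : (X 0 ^ 4 * X 1 ^ 0 * X 2 ^ 0 : Sq 4) ∈ Wd := by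
  have h := qu0
  convert h using 1
  ring

theorem Pall (x y z : ℕ) (h : x + y + z = 4) : (X 0 ^ x * X 1 ^ y * X 2 ^ z : Sq 4) ∈ Wd := by
  have hx : x ≤ 4 := by omega
  interval_cases x
  · have hy : y ≤ 4 := by omega
    interval_cases y
    · obtain rfl : z = 4 := by omega
      exact P004
    · obtain rfl : z = 3 := by omega
      exact P013
    · obtain rfl : z = 2 := by omega
      exact P022
    · obtain rfl : z = 1 := by omega
      exact P031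
    · obtain rfl : z = 0 := by omega
      exact P040
  · have hy : y ≤ 3 := by omega
    interval_cases y
    · obtain rfl : z = 3 := by omega
      exact P103
    · obtain rfl : z = 2 := by omega
      exact P112
    · obtain rfl : z = 1 := by omega
      exact P121
    · obtain rfl : z = 0 := by omega
      exact P130
  · have hy : y ≤ 2 := by omega
    interval_cases y
    · obtain rfl : z = 2 := by omega
      exact P202
    · obtain rfl : z = 1 := by omega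
      exact P211
    · obtain rfl : z = 0 := by omega
      exact P220
  · have hy : y ≤ 1 := by omega
    interval_cases y
    · obtain rfl : z = 1 := by omega
      exact P301
    · obtain rfl : z = 0 := by omega
      exact P310
  · have hy : y ≤ 0 := by omega
    interval_cases y
    · obtain rfl : z = 0 := by omega
      exact P400

theorem mono_mem (μ : Fin 4 →₀ ℕ) (h : μ.degree = 4) : (monomial μ 1 : Sq 4) ∈ Wd := by
  have hs : μ 0 + μ 1 + μ 2 + μ 3 = 4 := by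
    rw [Finsupp.degree_eq_sum, Fin.sum_univ_four] at h
    exact h
  by_cases h3 : μ 3 = 0
  · have hm : (monomial μ 1 : Sq 4) = X 0 ^ μ 0 * X 1 ^ μ 1 * X 2 ^ μ 2 := by
      rw [monomial_eq, C_1, one_mul, Finsupp.prod_fintype _ _ (fun i => pow_zero _),
        Fin.prod_univ_four, h3, pow_zero, mul_one]
    rw [hm]
    rw [h3, add_zero] at hs
    exact Pall _ _ _ hs
  · have e : (μ - Finsupp.single 3 1) + Finsupp.single 3 1 = μ := by
      apply tsub_add_cancel_of_le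
      rw [Finsupp.single_le_iff]
      omega
    have hd : (μ - Finsupp.single 3 1).degree = 3 := by
      have h5 := congrArg Finsupp.degree e
      rw [map_add, Finsupp.degree_single, h] at h5
      omega
    have hm : (monomial μ 1 : Sq 4) = X 3 * monomial (μ - Finsupp.single 3 1) 1 := by
      rw [mul_comm, X, monomial_mul, e, mul_one]
    rw [hm]
    exact lin_mem _ (isHomogeneous_monomial _ hd)

theorem form_mem (T : Sq 4) (hT : T.IsHomogeneous 4) : T ∈ Wd := by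
  rw [← support_sum_monomial_coeff T]
  refine Wd.sum_mem fun μ hμ => ?_
  have h : (monomial μ (coeff μ T) : Sq 4) = coeff μ T • monomial μ 1 := by
    rw [smul_monomial, smul_eq_mul, mul_one]
  rw [h]
  refine Wd.smul_mem _ (mono_mem μ ?_)
  by_contra hne
  exact mem_support_iff.1 hμ (hT.coeff_eq_zero hne)

end Pool.Agent.LX.H95
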